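import Pool.Agent.H65.HX.SDefs

/-!
# Project HX, scheme side for `|p - D / 2| ≤ ε D`: statements of the parts

Prove `S_XXX` as `theorem t_XXX : S_XXX`, a part using others as
`theorem t_XXX (h : S_YYY) : S_XXX`.  Proofs: `Pool/Agent/H65/HX/NOTES.md`.
The names are those of `Pool/Agent/H39/HW/SStm.lean` where the part is similar.
-/

set_option autoImplicit false
open Classical Finset

namespace Pool.Agent.H65.HX.Sc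

open Pool.Agent.H39.HW (sm Av ln blk lab)
open Pool.Agent.H65.HX

/-! ### blocks and adjacency -/

/-- BLK: the function `st` -/
def S_BLK : Prop := ∀ x : Prm, Par x →
  x.st 0 = 0 ∧ x.st x.B = x.D + 2 * x.p ∧ (∀ β, x.st β ≤ x.st (β + 1)) ∧
  (∀ i n, x.K ≤ n + 2 * x.W + 2 → i + n ≤ x.B → x.st i + x.p ≤ x.st (i + n)) ∧
  (∀ β, β < x.Kh → ln x.st β = x.w1) ∧
  (∀ β, x.Kh ≤ β → β < x.b0 → ln x.st β = x.w2) ∧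
  (∀ β, x.b0 ≤ β → β < x.b1 → ln x.st β = x.v) ∧
  (∀ β, x.b1 ≤ β → β + x.Kh < x.B → ln x.st β = x.w2) ∧
  (∀ β, x.B ≤ β + x.Kh → β + 1 < x.B → ln x.st β = x.w1) ∧
  (∀ β, β + 1 = x.B → x.w1 ≤ ln x.st β ∧ ln x.st β ≤ x.w1 + x.M) ∧
  (∀ β < x.B, x.w2 ≤ ln x.st β ∧ ln x.st β ≤ x.v + x.M)

/-- AVA: which blocks are at distance at least `p` from the row `a` -/
def S_AVA : Prop := ∀ x : Prm, Par x → ∀ a ∈ x.R, ∀ β < x.B,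
  (a + x.K ≤ β + 2 * x.W → Av x.st x.p a β) ∧
  (β + x.K ≤ a + 2 * x.W → Av x.st x.p a β) ∧
  (¬ x.adj a β → Av x.st x.p a β) ∧
  (a ≤ β → Av x.st x.p a β → a + x.g + 1 ≤ β) ∧
  (β ≤ a → Av x.st x.p a β → β + x.g + 1 ≤ a) ∧
  (x.b0 ≤ β → β < x.b1 → a + x.g + 1 + x.e ≤ β → Av x.st x.p a β) ∧
  (x.b0 ≤ β → β < x.b1 → β + x.g + 1 + x.e ≤ a → Av x.st x.p a β) ∧
  (x.b0 ≤ β → β < x.b1 → x.b0 ≤ a → a < x.b1 → a + x.g + 1 ≤ β → Av x.st x.p a β) ∧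
  (x.b0 ≤ β → β < x.b1 → x.b0 ≤ a → a < x.b1 → β + x.g + 1 ≤ a → Av x.st x.p a β)

/-- MMD: description of `mm` (as HW) -/
def S_MMD : Prop := ∀ x : Prm, Par x → x.R.card = x.M + 2 * x.J - 1 ∧ ∀ a ∈ x.R,
  (∀ β, β ∈ x.mm a ↔ β < x.B ∧ ¬ x.adj a β ∧ β ≠ sm x.B a a) ∧
  (x.mm a).card + 1 = x.R.card ∧ sm x.B a a < x.B ∧ ¬ x.adj a (sm x.B a a)

/-- WIN: the windows of the rows: `((a + K + 1) / W - 1)` is inside `(a + K - 2 W, a + K]`, and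
`((a - K) / W + 1)` inside `(a - K, a - K + 2 W)` -/
def S_WIN : Prop := ∀ x : Prm, Par x → ∀ a ∈ x.R, ∀ τ : Bool,
  (∀ β, β / x.W = x.win τ a →
    β < x.B ∧ Av x.st x.p a β ∧ x.adj a β ∧
    (τ = true → a < β ∧ x.b0 ≤ β ∧ a + x.K < β + 2 * x.W) ∧
    (τ = false → β < a ∧ β < x.b1 ∧ β + x.K < a + 2 * x.W)) ∧
  (x.win τ a + 1) * x.W ≤ x.B ∧ (∀ P < 2 * x.h, (x.S P a).card = x.q) ∧
  (x.R.filter fun b => x.win τ b = x.win τ a).card ≤ x.W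

/-- ZON: where the rows and blocks are: all rows `a` with `2 a + 2 n0 < B` have `a + K < b1` and no
available middle block below `a`, those with `B + 2 n0 < 2 a` have `b0 + K < a` and no available
middle block above `a` (all of this because `|2 K - B / 2| μ, |b0 + g - B / 2| μ ≤ 4 η`, while
`n0 μ ≥ 10^6 η`) -/
def S_ZON : Prop := ∀ x : Prm, Par x →
  |(x.B : ℝ) / 2 * x.μ - 1| ≤ 3 * x.η ∧ |(x.B : ℝ) / 2 * x.μ - 2 * x.K * x.μ| ≤ 3 * x.η ∧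
  |(x.g : ℝ) * x.μ - 1 / 2| ≤ 2 * x.η ∧ |(x.b0 : ℝ) * x.μ - 1 / 2| ≤ 2 * x.η ∧
  x.n0 * x.μ ≤ 1 / 10 ^ 12 ∧
  ∀ a ∈ x.R,
    (2 * a + 2 * x.n0 < x.B → a + x.K + 1 < x.b1 ∧ a < x.b0 + x.g ∧ a < x.b1 ∧
      ∀ β < x.B, β < a → Av x.st x.p a β → β < x.b0) ∧
    (x.B + 2 * x.n0 < 2 * a → x.b0 + x.K + 1 < a ∧ x.b1 < a + x.g + 1 ∧ x.b0 ≤ a ∧
      ∀ β < x.B, a < β → Av x.st x.p a β → x.b1 ≤ β) ∧
    (a ∈ x.R0 → x.b0 ≤ a ∧ a < x.b1)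

/-- CLD: description of the classes and of their demands -/
def S_CLD : Prop := ∀ x : Prm, Par x → ∀ a ∈ x.R,
  (∀ β, β ∈ x.cls a ↔ β < x.B ∧ Av x.st x.p a β ∧ β ≠ sm x.B a a ∧
    ¬ (β / x.W = x.win true a ∧ 4 * x.h ^ 2 ≤ β % x.L ∧ β % x.L < 4 * x.h ^ 2 + x.h) ∧
    ¬ (β / x.W = x.win false a ∧ 4 * x.h ^ 2 + x.h ≤ β % x.L ∧
      β % x.L < 4 * x.h ^ 2 + 2 * x.h)) ∧
  x.mm a ⊆ x.cls a ∧ a ∉ x.cls a ∧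
  (∀ β ∈ x.cls a, x.adj a β → x.dem a β = (ln x.st β : ℝ) / x.D) ∧
  (∀ β ∈ x.cls a, ¬ x.adj a β → x.dem a β = (ln x.st β : ℝ) / x.D - x.μ) ∧
  (∀ β ∈ x.cls a, 7 / 50 * x.θ * x.μ ≤ x.dem a β ∧ x.dem a β ≤ 2 * x.μ) ∧
  (∀ β ∈ x.cls a, β ∈ x.mid → ¬ x.adj a β →
    (3 / 5 - x.η) * x.θ * x.μ ≤ x.dem a β ∧ x.dem a β ≤ (3 / 5 + x.η) * x.θ * x.μ)

/-- SRB: the reserved labels -/
def S_SRB : Prop := ∀ x : Prm, Par x → ∀ a ∈ x.R,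
  (∀ P < 2 * x.h, x.θ / (200 * x.L * x.h) ≤ ((lab x.st (x.S P a)).card : ℝ) / x.D ∧
    ((lab x.st (x.S P a)).card : ℝ) / x.D ≤ x.θ / (119 * x.L * x.h)) ∧
  (∀ P < 2 * x.h, ∀ Q < 2 * x.h,
    |((lab x.st (x.S P a)).card : ℝ) / x.D - ((lab x.st (x.S Q a)).card : ℝ) / x.D| ≤
      x.η * x.θ / (100 * x.L * x.h)) ∧
  ∀ τ : Bool, x.θ / (200 * x.L) ≤ x.sr τ a ∧ x.sr τ a ≤ x.θ / (119 * x.L) ∧
    |x.sr τ a - x.sr (!τ) a| ≤ x.η * x.θ / (100 * x.L) ∧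
    ∀ P < 2 * x.h, |((lab x.st (x.S P a)).card : ℝ) / x.D - x.sr τ a / x.h| ≤
      x.η * x.θ / (100 * x.L * x.h)

/-- TOT: the total demand of a row, and the demand below the row.  The available blocks below `a`
are `[0, i)` with `st i ≤ st a + 1 - p < st (i + 1)` -/
def S_TOT : Prop := ∀ x : Prm, Par x → ∀ a ∈ x.R,
  |x.Dt a - (x.θ - x.sr true a - x.sr false a)| ≤ 20 * x.μ ∧
  |x.DL a - (((x.st a : ℝ) - x.p) / x.D - ((a : ℝ) - x.K) * x.μ - x.sr false a)| ≤ 20 * x.μ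

/-- CEN: evaluation of the formula of TOT: linear in `a`, `θ / 2` in the centre -/
def S_CEN : Prop := ∀ x : Prm, Par x → ∀ a ∈ x.R,
  |((x.st a : ℝ) - x.p) / x.D - ((a : ℝ) - x.K) * x.μ -
    x.θ * (1 / 2 + 3 / 5 * (((a : ℝ) - x.B / 2) * x.μ))| ≤ 5 * x.η * x.θ ∧
  (a ∈ x.R0 → |((x.st a : ℝ) - x.p) / x.D - ((a : ℝ) - x.K) * x.μ - x.θ / 2| ≤
    13 / 20 * (x.n0 * x.μ * x.θ))

/-! ### the flexible fraction -/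

/-- DJN: the demand of the adjacent middle classes -/
def S_DJN : Prop := ∀ x : Prm, Par x → ∀ a ∈ x.R, a ∉ x.R0 →
  (2 / 5 - 3 * x.η - 1 / (100 * x.L)) * x.θ ≤ x.DJ a ∧ x.DJ a ≤ (2 / 5 + x.η) * x.θ ∧
  x.DJ a ≤ ((x.K : ℝ) - x.g) * (x.v / x.D)

/-- LAM: the fraction is a fraction.  `2 a + 2 n0 < B`: `Dt / 2 = ∑ (1 - gA) dem =
DL + 3/4 ∑_{mid, not adj} dem + (1 - lam) DJ`; `B + 2 n0 < 2 a`: `Dt / 2 = ∑ gA dem =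
(Dt - DL) + 3/4 ∑_{mid, not adj} dem + lam DJ` -/
def S_LAM : Prop := ∀ x : Prm, Par x → ∀ a ∈ x.R, a ∉ x.R0 →
  0 ≤ x.lam a ∧ x.lam a ≤ 1 ∧
  (2 * a < x.B → |(1 - x.lam a) * x.DJ a - 3 / 20 * (((x.B : ℝ) / 2 - a) * x.μ) * x.θ| ≤
    20 * x.η * x.θ) ∧
  (x.B < 2 * a → |x.lam a * x.DJ a - 3 / 20 * (((a : ℝ) - x.B / 2) * x.μ) * x.θ| ≤
    20 * x.η * x.θ)

/-- TTB: the totals of the types -/
def S_TTB : Prop := ∀ x : Prm, Par x → ∀ a ∈ x.R, ∀ τ : Bool,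
  (1 / 2 - 1 / (100 * x.L)) * x.θ ≤ x.Tt τ a ∧ x.Tt τ a ≤ x.θ / 2 ∧
  (a ∉ x.R0 → x.Tt τ a = x.Dt a / 2 ∧
    |x.Tt τ a + x.sr τ a - x.θ / 2| ≤ x.η * x.θ / (50 * x.L)) ∧
  (a ∈ x.R0 → |x.Tt τ a + x.sr τ a - x.θ / 2| ≤ 7 / 10 * (x.n0 * x.μ * x.θ)) ∧
  (a ∈ x.R0 → x.Tt false a = x.DL a ∧ x.Tt true a = x.Dt a - x.DL a)

/-! ### column sums -/

/-- CRA: rows below the block, type `true` (`y = (β - B / 2) μ`): adjacent rows `≤ 2/5 - 3/20 (1/2 -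
y)` (at most `K - g` of them, rigid ones with fraction 1), other rows: 1/4 of `3/5` on `y` (and at
most `2 n0 + 1` rigid rows) -/
def S_CRA : Prop := ∀ x : Prm, Par x → ∀ β ∈ x.mid,
  ∑ a ∈ x.R.filter (fun a => a < β ∧ β ∈ x.cls a), x.fr true a β * x.dem a β ≤
    ((if x.K + x.g + 2 ≤ β then 13 / 40 + 3 / 10 * max (((β : ℝ) - x.B / 2) * x.μ) 0 else 0)
      + 1 / 1000) * x.θ

/-- CLB: rows above the block, type `false` -/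
def S_CLB : Prop := ∀ x : Prm, Par x → ∀ β ∈ x.mid,
  ∑ a ∈ x.R.filter (fun a => β < a ∧ β ∈ x.cls a), x.fr false a β * x.dem a β ≤
    ((if β + x.K + x.g + 2 ≤ x.B then 13 / 40 + 3 / 10 * max (((x.B : ℝ) / 2 - β) * x.μ) 0 else 0)
      + 1 / 1000) * x.θ

/-- CRB: rows below the block, type `false`: adjacent rows `≤ 3/20 (1/2 - y)`, the others 3/4 of
`3/5` on `y` -/
def S_CRB : Prop := ∀ x : Prm, Par x → ∀ β ∈ x.mid,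
  ∑ a ∈ x.R.filter (fun a => a < β ∧ β ∈ x.cls a), x.fr false a β * x.dem a β ≤
    ((if x.K + x.g + 2 ≤ β then 3 / 40 + 3 / 10 * max (((β : ℝ) - x.B / 2) * x.μ) 0 else 0)
      + 1 / 1000) * x.θ

/-- CLA: rows above the block, type `true` -/
def S_CLA : Prop := ∀ x : Prm, Par x → ∀ β ∈ x.mid,
  ∑ a ∈ x.R.filter (fun a => β < a ∧ β ∈ x.cls a), x.fr true a β * x.dem a β ≤
    ((if β + x.K + x.g + 2 ≤ x.B then 3 / 40 + 3 / 10 * max (((x.B : ℝ) / 2 - β) * x.μ) 0 else 0)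
      + 1 / 1000) * x.θ

/-- CTO: columns in the end zones.  Top: rows `a + K < β`: `β - 2 K - 1` of demand `ln - μ`; adjacent
rows: the blocks `β - K, ..., a` have at most `st β - st (β - K) - p + 1` labels.  With
`y = (β - b1) μ`: `3/20 (1/2 + y) + 2/5 - 9/20 y` for the blocks of length `w2`,
`1/4 (1/2 + y) + 3/8 - 7/20 y` for those of length `w1` (`y ≥ 1/4 - η`) -/
def S_CTO : Prop := ∀ x : Prm, Par x → ∀ β < x.B, β ∉ x.mid →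
  ∑ a ∈ x.R.filter (fun a => β ∈ x.cls a), x.dem a β ≤ (19 / 40 + 1 / 1000) * x.θ

/-- COL: column sums -/
def S_COL : Prop := ∀ x : Prm, Par x → ∀ τ : Bool, ∀ β < x.B,
  ∑ a ∈ x.R, x.u τ a β ≤ 24 / 25

/-- the total to which the demand of the class `β` belongs -/
noncomputable def TT (x : Prm) (a β : ℕ) : ℝ :=
  if a ∈ x.R0 then x.Tt (decide (a < β)) a else x.Dt a / 2

/-- ROW: basic facts on `u` -/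
def S_ROW : Prop := ∀ x : Prm, Par x → ∀ a ∈ x.R, ∀ τ : Bool,
  (∀ β, 0 ≤ x.u τ a β) ∧ (∀ β, x.u τ a β ≤ 5 * x.μ / x.θ) ∧
  ∑ β ∈ range x.B, x.u τ a β = 1 ∧
  (∀ β, x.u τ a β ≠ 0 → β ∈ x.cls a ∧ x.d0.Al x.D x.p τ β ∧ (a ∈ x.R0 → τ = decide (a < β))) ∧
  (∀ β ∈ x.cls a, x.u true a β + x.u false a β = x.dem a β / TT x a β) ∧
  (∀ β ∈ x.Hb a, (a ∈ x.R0 → τ = decide (a < β)) →
    1 / 4 * (x.dem a β / TT x a β) ≤ x.u τ a β)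

/-! ### parts -/

/-- PAT: the pattern -/
def S_PAT : Prop := ∀ x : Prm, Par x → ∀ P < 2 * x.h,
  (∀ i, 0 ≤ x.wt P i ∧ (x.wt P i : ℝ) ≤ 1 + 3 / x.h) ∧ (∀ i, ¬ x.resv P i → 1 ≤ x.wt P i) ∧
  ∑ i ∈ range x.L, x.wt P i = x.L ∧
  ∑ i ∈ Finset.Ico (4 * x.h ^ 2) (4 * x.h ^ 2 + x.h), x.wt P i = x.h ∧
  ∑ i ∈ Finset.Ico (4 * x.h ^ 2 + x.h) (4 * x.h ^ 2 + 2 * x.h), x.wt P i = x.h ∧
  ∀ τ i, ∑ Q ∈ (range (2 * x.h)).filter (fun Q => x.tp Q = τ), x.wt Q i = x.h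

/-- SHR: the shares of the parts of the same type in a row are almost equal -/
def S_SHR : Prop := ∀ x : Prm, Par x → ∀ P < 2 * x.h, ∀ a ∈ x.R,
  |x.rs P a - 1| ≤ 1000 * x.L * x.μ / x.θ

/-- UPB: facts on `uP` -/
def S_UPB : Prop := ∀ x : Prm, Par x → ∀ P < 2 * x.h,
  (∀ a ∈ x.R, (∀ β, 0 ≤ x.uP P a β) ∧ ∑ β ∈ range x.B, x.uP P a β = 1 ∧
    (∀ β, x.uP P a β ≠ 0 → β ∈ x.cls a ∧ x.d0.Al x.D x.p (x.tp P) β ∧ β ∉ x.F P ∧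
      (a ∈ x.R0 → x.tp P = decide (a < β)))) ∧
  ∀ β < x.B, ∑ a ∈ x.R, x.uP P a β ≤ 97 / 100

/-- UPT: the total of all parts -/
def S_UPT : Prop := ∀ x : Prm, Par x → ∀ a ∈ x.R, ∀ β ∈ x.cls a,
  |∑ P ∈ range (2 * x.h), x.uP P a β - x.h * x.dem a β / TT x a β| ≤
    x.η / (10 ^ 6 * x.L ^ 2) * (x.h * x.dem a β / TT x a β)

/-- KKR: rounding -/
def S_KKR : Prop := ∀ x : Prm, Par x → ∀ P < 2 * x.h,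
  (∀ a ∈ x.R, ∑ β ∈ range x.B, x.kk P a β = x.t ∧
    (∀ β, |(x.kk P a β : ℝ) - x.t * x.uP P a β| ≤ 1) ∧
    (∀ β, x.uP P a β = 0 → x.kk P a β = 0) ∧ (∀ β, x.B ≤ β → x.kk P a β = 0)) ∧
  ∀ β < x.B, (∑ a ∈ x.R, x.kk P a β : ℝ) ≤ 49 / 50 * x.t

/-- the properties of the service -/
def Ser (x : Prm) (φ : ℕ → ℕ → ℕ) : Prop :=
  (∀ y < 2 * x.h * x.t, ∀ a ∈ x.R, ∀ b ∈ x.R, φ y a = φ y b → a = b) ∧
  ∀ P < 2 * x.h, ∀ a ∈ x.R, ∀ β,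
    ((range (2 * x.h * x.t)).filter fun y => y / x.t = P ∧ φ y a = β).card = x.kk P a β

/-- PHI: the service -/
def S_PHI : Prop := ∀ x : Prm, Par x → ∃ φ : ℕ → ℕ → ℕ, Ser x φ

/-- KTB: the numbers `kt` and `k` -/
def S_KTB : Prop := ∀ x : Prm, Par x → ∀ φ, Ser x φ → ∀ a ∈ x.R,
  (∀ P < 2 * x.h, ∀ β, (x.dat φ).k P a β = x.kk P a β) ∧
  ∀ β ∈ x.cls a,
    |((x.dat φ).kt a β : ℝ) - x.h * x.t * x.dem a β / TT x a β| ≤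
      x.η / (10 ^ 5 * x.L ^ 2) * (x.h * x.t * x.dem a β / TT x a β)

/-! ### the fields of `Sch` -/

/-- VA: the fields on blocks and weights -/
def S_VA : Prop := ∀ x : Prm, Par x → ∀ φ,
  let s := x.dat φ
  1 ≤ x.p ∧ 2 * s.K + 2 ≤ s.B ∧ (∀ a ∈ s.R, s.K + 1 ≤ a ∧ a + s.K + 1 ≤ s.B) ∧
  1 ≤ s.H ∧ 1 ≤ s.m ∧ (∀ i, i + s.K ≤ s.B → s.st i + x.p ≤ s.st (i + s.K)) ∧
  (∀ β < s.B, (s.μ + 2 * s.δ) * x.D + 2 ≤ ln s.st β) ∧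
  (∀ β < s.B, (ln s.st β : ℝ) ≤ 3 * s.μ * x.D) ∧
  0 < s.δ ∧ s.ω ≤ s.μ ∧ 0 < s.ρ1 ∧ s.ρ1 ≤ s.ρ2 ∧ s.ρ2 ≤ 1 / 16 ∧
  10 ^ 4 * (s.m + 2) * (s.B + 2) * (s.H + 2) * s.δ ≤ s.ρ1 * s.ω ∧
  s.R.card * s.μ + s.m * s.ω = 1 ∧ (s.m : ℝ) * (s.ω + s.δ) * x.D + 2 ≤ s.ξ ∧
  s.ξ ≤ x.p ∧ 2 * s.ξ ≤ x.D ∧ (∀ y < s.m, s.part y < s.H) ∧ 1000 * s.μ ≤ s.ρ1 * s.ρ3

/-- ALL: allowed blocks -/
def S_ALL : Prop := ∀ x : Prm, Par x → ∀ β < x.B,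
  (x.b0 ≤ β → x.d0.Al x.D x.p true β) ∧ (β < x.b1 → x.d0.Al x.D x.p false β)

/-- VB: the fields on the reserved blocks -/
def S_VB : Prop := ∀ x : Prm, Par x → ∀ φ,
  let s := x.dat φ
  (∀ P < s.H, ∀ a ∈ s.R, ∀ β ∈ s.S P a,
    β < s.B ∧ Av s.st x.p a β ∧ β ∉ s.mm a ∧ β ≠ sm s.B a a ∧
      s.Al x.D x.p (s.ty P) β ∧ β ∈ s.F P) ∧
  (∀ P < s.H, ∀ Q < s.H, P ≠ Q → ∀ a ∈ s.R, Disjoint (s.S P a) (s.S Q a)) ∧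
  (∀ P < s.H, ∀ a ∈ s.R, ∀ b ∈ s.R,
    s.S P a = s.S P b ∨ Disjoint (s.S P a) (s.S P b)) ∧
  (∀ P < s.H, ∀ a ∈ s.R,
    ((s.R.filter fun b => s.S P b = s.S P a).card : ℝ) * (16 * s.ρ2 * s.μ) * x.D ≤
      (lab s.st (s.S P a)).card)

/-- VC: the fields on the blocks for the edges between special vertices -/
def S_VC : Prop := ∀ x : Prm, Par x → ∀ φ,
  let s := x.dat φ
  (∀ P < s.H, ∀ Q < s.H, s.Φ P Q = s.Φ Q P) ∧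
  (∀ P < s.H, ∀ Q < s.H, ∀ β ∈ s.Φ P Q,
    β < s.B ∧ s.Al x.D x.p (s.ty P) β ∧ β ∈ s.F P ∧ ∀ a ∈ s.R, β ∉ s.S P a) ∧
  (∀ P < s.H, ∀ Q < s.H,
    2 * (s.m * (s.ω + s.δ)) * x.D + 2 ≤ (lab s.st (s.Φ P Q)).card)

/-- VD: the fields on the service -/
def S_VD : Prop := ∀ x : Prm, Par x → ∀ φ, Ser x φ →
  let s := x.dat φ
  (∀ y < s.m, ∀ a ∈ s.R, s.φ y a ∈ s.cls x.p a) ∧
  (∀ y < s.m, ∀ a ∈ s.R, ∀ b ∈ s.R, s.φ y a = s.φ y b → a = b) ∧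
  (∀ y < s.m, ∀ a ∈ s.R, s.Al x.D x.p (s.ty (s.part y)) (s.φ y a)) ∧
  (∀ y < s.m, ∀ a ∈ s.R, s.φ y a ∉ s.F (s.part y)) ∧
  (∀ y < s.m, ∀ a ∈ s.R0, s.ty (s.part y) = decide (a < s.φ y a))

/-- VE: free cells -/
def S_VE : Prop := ∀ x : Prm, Par x → ∀ φ, Ser x φ →
  let s := x.dat φ
  ∀ β < s.B, ∀ τ : Bool, s.ρ3 ≤ s.ω * ((range s.m).filter fun y =>
    s.ty (s.part y) = τ ∧ β ∉ s.F (s.part y) ∧ ∀ a ∈ s.R, s.φ y a ≠ β).card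

/-- VF: the surplus of a class -/
def S_VF : Prop := ∀ x : Prm, Par x → ∀ φ, Ser x φ →
  let s := x.dat φ
  ∀ a ∈ s.R, ∀ β ∈ s.cls x.p a, s.ρ1 * (s.ω * s.kt a β) ≤ s.lo x.D a β ∧
    s.lo x.D a β ≤ s.ρ2 * (s.ω * s.kt a β) ∧ 1 / (200 * x.L) * x.dem a β ≤ s.lo x.D a β

/-- VG: the surplus of a part -/
def S_VG : Prop := ∀ x : Prm, Par x → ∀ φ, Ser x φ →
  let s := x.dat φ
  ∀ P < s.H, ∀ a ∈ s.R,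
    |∑ β ∈ s.cls x.p a, s.lo x.D a β * (s.k P a β : ℝ) / s.kt a β -
      ((lab s.st (s.S P a)).card : ℝ) / x.D| ≤ s.e1 a

/-- VH: the hub -/
def S_VH : Prop := ∀ x : Prm, Par x → ∀ φ, Ser x φ →
  let s := x.dat φ
  (∀ a ∈ s.R, s.Hb a ⊆ s.cls x.p a) ∧
  (∀ a ∈ s.R, ∀ β ∈ s.Hb a, ∀ P < s.H, (a ∈ s.R0 → s.ty P = decide (a < β)) →
    s.kt a β ≤ 8 * s.H * s.k P a β)

/-- VI: the size of the hub of a row which is not rigid: at least `n0 / 2 - L` blocks of the middle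
zone, at least `1 / (12 μ)` for the rows in `YY` -/
def S_VI : Prop := ∀ x : Prm, Par x → ∀ φ, Ser x φ →
  let s := x.dat φ
  ∀ a ∈ s.R, a ∉ s.R0 → 64 * s.H * (s.e1 a + 40 * s.μ) ≤ ∑ β ∈ s.Hb a, s.lo x.D a β

/-- VJ: the size of the hub of a rigid row -/
def S_VJ : Prop := ∀ x : Prm, Par x → ∀ φ, Ser x φ →
  let s := x.dat φ
  ∀ a ∈ s.R0, ∀ τ : Bool, 64 * s.H * (s.e1 a + 40 * s.μ) ≤
    ∑ β ∈ (s.Hb a).filter (fun β => decide (a < β) = τ), s.lo x.D a β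

/-- VK: the rigid rows -/
def S_VK : Prop := ∀ x : Prm, Par x → ∀ φ,
  let s := x.dat φ
  s.R0 ⊆ s.R ∧ (∀ τ : Bool, ∃ P < s.H, s.ty P = τ) ∧
  (∀ P < s.H, ∀ a ∈ s.R0, ∀ β ∈ s.S P a, s.ty P = decide (a < β)) ∧ 0 ≤ s.e2 ∧
  ∀ a ∈ s.R0,
    |∑ β ∈ (s.cls x.p a).filter (fun β => decide (a < β) = false), s.dem x.D a β +
      ∑ P ∈ (range s.H).filter (fun P => s.ty P = false),
        ((lab s.st (s.S P a)).card : ℝ) / x.D -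
      s.ω * ((range s.m).filter fun y => s.ty (s.part y) = false).card| ≤ s.e2

/-- VL: rows and blocks for the moved edges -/
def S_VL : Prop := ∀ x : Prm, Par x → ∀ φ,
  let s := x.dat φ
  (∀ τ, ∀ b ∈ s.Y τ, b ∈ s.R ∧ b ∉ s.R0 ∧ b ∉ s.Y (!τ)) ∧
  (∀ τ, ∀ β ∈ s.Z τ, ∀ a ∈ s.R0, β ∈ s.cls x.p a ∧ decide (a < β) = τ) ∧
  (∀ τ, ∀ β ∈ s.Z τ, ∀ b ∈ s.Y τ, β ∈ s.cls x.p b) ∧
  (∀ τ, ∀ a ∈ s.R0, ∀ b ∈ s.Y τ, decide (a < sm s.B a b) = !τ)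

/-- VM: the sides -/
def S_VM : Prop := ∀ x : Prm, Par x → ∀ φ,
  let s := x.dat φ
  (∀ β, ∀ a ∈ s.R, ∀ b ∈ s.R, a ≠ b → sm s.B a b = β → s.lf β a ≠ s.lf β b) ∧
  (∀ τ, ∀ β ∈ s.Z τ, (∀ a ∈ s.R0, s.lf β a = true) ∧ ∀ b ∈ s.Y τ, s.lf β b = false)

/-- VN: the errors for the moved edges -/
def S_VN : Prop := ∀ x : Prm, Par x → ∀ φ, Ser x φ →
  let s := x.dat φ
  (∀ a ∈ s.R, 0 ≤ s.er a) ∧ (∀ a ∈ s.R, ∀ β ∈ s.cls x.p a, 40 * s.er a ≤ s.lo x.D a β) ∧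
  (∀ a ∈ s.R, s.B * s.er a ≤ s.e1 a) ∧
  ∀ τ, ∀ a, (a ∈ s.R0 ∨ a ∈ s.Y true ∨ a ∈ s.Y false) →
    20 * (s.B + 1) * (s.e2 + 20 * s.μ) ≤ s.er a * (s.Y τ).card * (s.Z τ).card

/-- PAR: the choice of the parameters -/
def S_PAR : Prop := ∃ (ε : ℝ) (B0 m0 : ℕ) (δ : ℝ), 0 < ε ∧ 0 < δ ∧
  ∃ D0 : ℕ, ∀ D : ℕ, D0 ≤ D → ∀ p : ℕ, |(p : ℝ) - D / 2| ≤ ε * D →
    ∃ x : Prm, Par x ∧ x.D = D ∧ x.p = p ∧ x.δ = δ ∧ x.B ≤ B0 ∧ 2 * x.h * x.t ≤ m0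

end Pool.Agent.H65.HX.Sc
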