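import Pool.Agent.H65.HX.GStm

/-!
# Project HW: basic facts about blocks
-/

set_option autoImplicit false
open Classical Finset

namespace Pool.Agent.H65.HX

open Pool.Agent.H21.HV (nb Prp TotLab)
open Pool.Agent.H39.HW (sm Av ln blk lab Reg)
open Pool.Agent.H65.HW (cell)

theorem mem_blk {st : ℕ → ℕ} {β n : ℕ} : n ∈ blk st β ↔ st β ≤ n ∧ n < st (β + 1) := by
  simp [blk]

theorem mem_lab {st : ℕ → ℕ} {T : Finset ℕ} {n : ℕ} :
    n ∈ lab st T ↔ ∃ β ∈ T, n ∈ blk st β := by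
  simp [lab]

theorem blk_sub_lab {st : ℕ → ℕ} {T : Finset ℕ} {β : ℕ} (h : β ∈ T) : blk st β ⊆ lab st T :=
  fun _ hn => mem_lab.2 ⟨β, h, hn⟩

theorem card_blk (st : ℕ → ℕ) (β : ℕ) : (blk st β).card = ln st β := by simp [blk, ln]

theorem mono_of {st : ℕ → ℕ} (h : ∀ β, st β ≤ st (β + 1)) : Monotone st :=
  monotone_nat_of_le_succ h

theorem blk_disj {st : ℕ → ℕ} (h : ∀ β, st β ≤ st (β + 1)) {β β' : ℕ} (hne : β ≠ β') :
    Disjoint (blk st β) (blk st β') := by
  have hm := mono_of h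
  rw [Finset.disjoint_left]
  intro n hn hn'
  rw [mem_blk] at hn hn'
  rcases lt_or_gt_of_ne hne with hlt | hlt
  · have := hm (Nat.succ_le_of_lt hlt)
    simp only [Nat.succ_eq_add_one] at this
    omega
  · have := hm (Nat.succ_le_of_lt hlt)
    simp only [Nat.succ_eq_add_one] at this
    omega

theorem blk_unique {st : ℕ → ℕ} (h : ∀ β, st β ≤ st (β + 1)) {β β' n : ℕ}
    (h1 : n ∈ blk st β) (h2 : n ∈ blk st β') : β = β' := by
  by_contra hne
  exact Finset.disjoint_left.1 (blk_disj h hne) h1 h2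

theorem mem_lab_iff {st : ℕ → ℕ} (h : ∀ β, st β ≤ st (β + 1)) {β n : ℕ} {T : Finset ℕ}
    (h1 : n ∈ blk st β) : n ∈ lab st T ↔ β ∈ T := by
  constructor
  · intro h2
    obtain ⟨β', hb, hn⟩ := mem_lab.1 h2
    rwa [blk_unique h h1 hn]
  · intro h2
    exact blk_sub_lab h2 h1

theorem card_lab {st : ℕ → ℕ} (h : ∀ β, st β ≤ st (β + 1)) (T : Finset ℕ) :
    (lab st T).card = ∑ β ∈ T, ln st β := by
  unfold lab
  rw [Finset.card_biUnion]
  · exact Finset.sum_congr rfl fun β _ => card_blk st β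
  · intro x _ y _ hxy
    exact blk_disj h hxy

theorem lab_disj {st : ℕ → ℕ} (h : ∀ β, st β ≤ st (β + 1)) {T T' : Finset ℕ}
    (hd : Disjoint T T') : Disjoint (lab st T) (lab st T') := by
  rw [Finset.disjoint_left]
  intro n hn hn'
  obtain ⟨β, hb, hn1⟩ := mem_lab.1 hn
  exact Finset.disjoint_left.1 hd hb ((mem_lab_iff h hn1).1 hn')

theorem exists_blk {D p : ℕ} {s : Dat} (h : Sch D p s) {n : ℕ} (hn : n < D + 2 * p) :
    ∃ β < s.B, n ∈ blk s.st β := by
  have hex : ∃ β, n < s.st (β + 1) := by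
    refine ⟨s.B, ?_⟩
    have := h.stm s.B
    have := h.stB
    omega
  set β := Nat.find hex with hβ
  have h1 : n < s.st (β + 1) := Nat.find_spec hex
  have h0 : s.st β ≤ n := by
    rcases Nat.eq_zero_or_pos β with h0 | h0
    · rw [h0, h.st0]; omega
    · have := Nat.find_min hex (m := β - 1) (by omega)
      rw [Nat.sub_add_cancel h0] at this
      omega
  refine ⟨β, ?_, mem_blk.2 ⟨h0, h1⟩⟩
  by_contra hc
  have := mono_of h.stm (not_lt.1 hc)
  rw [h.stB] at this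
  omega

theorem blk_lt {D p : ℕ} {s : Dat} (h : Sch D p s) {β n : ℕ} (hβ : β < s.B)
    (hn : n ∈ blk s.st β) : n < D + 2 * p := by
  have h1 := mono_of h.stm (Nat.succ_le_of_lt hβ)
  rw [h.stB] at h1
  have h2 := (mem_blk.1 hn).2
  simp only [Nat.succ_eq_add_one] at h1
  omega

theorem lt_B_of_mem_blk {D p : ℕ} {s : Dat} (h : Sch D p s) {β n : ℕ} (hn : n ∈ blk s.st β)
    (hN : n < D + 2 * p) : β < s.B := by
  by_contra hc
  have := mono_of h.stm (not_lt.1 hc)
  rw [h.stB] at this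
  have := (mem_blk.1 hn).1
  omega

theorem row_lt {D p : ℕ} {s : Dat} (h : Sch D p s) {a : ℕ} (ha : a ∈ s.R) : a < s.B := by
  have := h.hR a ha
  omega

theorem omega_pos {D p : ℕ} {s : Dat} (h : Sch D p s) : 0 < s.ω := by
  have h1 := h.small
  have h2 : 0 < (10 : ℝ) ^ 4 * (s.m + 2) * (s.B + 2) * (s.H + 2) * s.δ := by
    have := h.dpos
    positivity
  have h3 := h.rho1
  by_contra hc
  have : s.ρ1 * s.ω ≤ 0 := mul_nonpos_of_nonneg_of_nonpos h3.le (not_lt.1 hc)
  linarith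

theorem mu_pos {D p : ℕ} {s : Dat} (h : Sch D p s) : 0 < s.μ :=
  lt_of_lt_of_le (omega_pos h) h.opos

theorem sm_comm (B a b : ℕ) : sm B a b = sm B b a := by
  unfold sm
  rw [add_comm]

theorem sm_inj {B a b c : ℕ} (hb : b < B) (hc : c < B) (h : sm B a b = sm B a c) : b = c := by
  unfold sm at h
  split_ifs at h <;> omega

/-- labels of a block which is available for `a` -/
theorem Av_dist {st : ℕ → ℕ} {p a β x n : ℕ} (h : Av st p a β) (hx : x ∈ blk st a)
    (hn : n ∈ blk st β) : x + p ≤ n ∨ n + p ≤ x := by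
  rw [mem_blk] at hx hn
  rcases h with h | h
  · left; omega
  · right; omega

theorem dist_rows {D p : ℕ} {s : Dat} (h : Sch D p s) {a b : ℕ} (ha : a ∈ s.R) (hb : b ∈ s.R) :
    sm s.B a b < s.B ∧ Av s.st p a (sm s.B a b) := by
  have hm := mono_of h.stm
  have h1 := h.hR a ha
  have h2 := h.hR b hb
  unfold sm Av
  split_ifs with hlt
  · refine ⟨hlt, Or.inl ?_⟩
    have h3 := h.KB (a + 1) (by omega)
    have h4 : s.st (a + 1 + s.K) ≤ s.st (a + b) := hm (by omega)
    omega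
  · refine ⟨by omega, Or.inr ?_⟩
    have h3 := h.KB (a + b - s.B + 1) (by omega)
    have h4 : s.st (a + b - s.B + 1 + s.K) ≤ s.st a := hm (by omega)
    omega

theorem t_DIST : S_DIST := by
  intro D p s h a ha b hb
  refine ⟨(dist_rows h ha hb).1, (dist_rows h ha hb).2, ?_⟩
  rw [sm_comm]
  exact (dist_rows h hb ha).2

theorem mem_mm {s : Dat} {a b : ℕ} (hb : b ∈ s.R) (hne : a ≠ b) : sm s.B a b ∈ s.mm a := by
  unfold Dat.mm
  exact Finset.mem_image.2 ⟨b, Finset.mem_erase.2 ⟨hne.symm, hb⟩, rfl⟩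

theorem mem_cls {s : Dat} {p a β : ℕ} : β ∈ s.cls p a ↔
    β < s.B ∧ Av s.st p a β ∧ β ≠ sm s.B a a ∧ ∀ P < s.H, β ∉ s.S P a := by
  unfold Dat.cls
  simp only [mem_sdiff, mem_erase, mem_filter, mem_range, mem_biUnion, not_exists, not_and]
  tauto

theorem sm_mem_cls {D p : ℕ} {s : Dat} (h : Sch D p s) {a b : ℕ} (ha : a ∈ s.R) (hb : b ∈ s.R)
    (hne : a ≠ b) : sm s.B a b ∈ s.cls p a := by
  refine mem_cls.2 ⟨(dist_rows h ha hb).1, (dist_rows h ha hb).2, ?_, ?_⟩
  · intro he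
    exact hne (sm_inj (row_lt h ha) (row_lt h hb) he.symm)
  · intro P hP hc
    exact (h.S1 P hP a ha _ hc).2.2.1 (mem_mm hb hne)

theorem mm_sub_cls {D p : ℕ} {s : Dat} (h : Sch D p s) {a β : ℕ} (ha : a ∈ s.R)
    (hβ : β ∈ s.mm a) : ∃ b ∈ s.R, a ≠ b ∧ sm s.B a b = β ∧ β ∈ s.cls p a := by
  unfold Dat.mm at hβ
  obtain ⟨b, hb, he⟩ := Finset.mem_image.1 hβ
  rw [Finset.mem_erase] at hb
  exact ⟨b, hb.2, hb.1.symm, he, he ▸ sm_mem_cls h ha hb.2 hb.1.symm⟩

/-- the number of neighbours of `v` in a union of disjoint sets -/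
theorem nb_biUnion {V : Type} (G : SimpleGraph V) {ι : Type} (I : Finset ι) (S : ι → Finset V)
    (hd : ∀ i ∈ I, ∀ j ∈ I, i ≠ j → Disjoint (S i) (S j)) (v : V) :
    nb G (I.biUnion S) v = ∑ i ∈ I, nb G (S i) v := by
  unfold nb
  rw [Finset.filter_biUnion, Finset.card_biUnion]
  intro i hi j hj hij
  exact Finset.disjoint_filter_filter (hd i hi j hj hij)

theorem cell_disj {V : Type} [Fintype V] (cl : V → ℕ) {i j : ℕ} (h : i ≠ j) :
    Disjoint (cell cl i) (cell cl j) := by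
  rw [Finset.disjoint_left]
  intro v hv hv'
  simp only [cell, mem_filter, mem_univ, true_and] at hv hv'
  exact h (hv.symm.trans hv')

theorem mem_cell {V : Type} [Fintype V] {cl : V → ℕ} {i : ℕ} {v : V} :
    v ∈ cell cl i ↔ cl v = i := by simp [cell]

theorem nb_mono_set {V : Type} (G : SimpleGraph V) {S S' : Finset V} (h : S ⊆ S') (v : V) :
    nb G S v ≤ nb G S' v := Finset.card_le_card (Finset.filter_subset_filter _ h)

theorem nb_mono_graph {V : Type} {G G' : SimpleGraph V} (h : G ≤ G') (S : Finset V) (v : V) :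
    nb G S v ≤ nb G' S v :=
  Finset.card_le_card fun u hu => by
    rw [Finset.mem_filter] at hu ⊢
    exact ⟨hu.1, h hu.2⟩

/-- neighbours are in rows or in special cells -/
theorem nb_split {V : Type} [Fintype V] (G Γ : SimpleGraph V) {D p : ℕ} {s : Dat} {cl : V → ℕ}
    (h : Ctx G D p s cl) (v : V) :
    nb Γ univ v = ∑ a ∈ s.R, nb Γ (cell cl a) v + ∑ y ∈ range s.m, nb Γ (cell cl (s.B + y)) v := by
  have h1 : (univ : Finset V) =
      s.R.biUnion (cell cl) ∪ (range s.m).biUnion (fun y => cell cl (s.B + y)) := by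
    ext u
    simp only [mem_univ, mem_union, mem_biUnion, mem_cell, mem_range, true_iff]
    rcases h.val u with h1 | ⟨h1, h2⟩
    · exact Or.inl ⟨_, h1, rfl⟩
    · exact Or.inr ⟨cl u - s.B, by omega, by omega⟩
  have h2 : Disjoint (s.R.biUnion (cell cl)) ((range s.m).biUnion (fun y => cell cl (s.B + y))) := by
    rw [Finset.disjoint_left]
    intro u hu hu'
    simp only [mem_biUnion, mem_cell, mem_range] at hu hu'
    obtain ⟨a, ha, hu⟩ := hu
    obtain ⟨y, _, hu'⟩ := hu'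
    have := row_lt h.sch ha
    omega
  have h3 : nb Γ univ v = nb Γ (s.R.biUnion (cell cl)) v +
      nb Γ ((range s.m).biUnion (fun y => cell cl (s.B + y))) v := by
    conv_lhs => rw [h1]
    unfold nb
    rw [Finset.filter_union, Finset.card_union_of_disjoint (Finset.disjoint_filter_filter h2)]
  rw [h3, nb_biUnion, nb_biUnion]
  · intro i _ j _ hij
    exact cell_disj cl (by omega)
  · intro i _ j _ hij
    exact cell_disj cl hij

/-- at most `(μ + δ) D` neighbours in a row, less than the size of a block -/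
theorem nb_row_le {V : Type} [Fintype V] {G : SimpleGraph V} {D p : ℕ} {s : Dat} {cl : V → ℕ}
    (h : Ctx G D p s cl) (v : V) {a : ℕ} (ha : a ∈ s.R) :
    (nb G (cell cl a) v : ℝ) ≤ (s.μ + s.δ) * D := by
  have := (abs_le.1 (h.row v a ha)).2
  linarith

theorem nb_row_lt {V : Type} [Fintype V] {G : SimpleGraph V} {D p : ℕ} {s : Dat} {cl : V → ℕ}
    (h : Ctx G D p s cl) (v : V) {a β : ℕ} (ha : a ∈ s.R) (hβ : β < s.B) :
    nb G (cell cl a) v + 2 ≤ ln s.st β := by
  have h1 := nb_row_le h v ha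
  have h2 := h.sch.lnl β hβ
  have h3 : 0 ≤ s.δ * D := mul_nonneg h.sch.dpos.le (Nat.cast_nonneg D)
  have h4 : ((nb G (cell cl a) v + 2 : ℕ) : ℝ) ≤ (ln s.st β : ℝ) := by
    push_cast
    nlinarith
  exact_mod_cast h4

end Pool.Agent.H65.HX
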