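import Pool.Agent.H65.HX.Defs

/-!
# Project HX, graph side: statements of the parts

As `Pool/Agent/H65/HW/GStm.lean`, with rigid rows and moved edges `X`.  Parts marked [NEW] are new,
parts marked [CHANGED] differ from the HW version (same proof idea), the others are copied.
-/

set_option autoImplicit false
open Classical Finset

namespace Pool.Agent.H65.HX

open Pool.Agent.H21.HV (nb Prp TotLab)
open Pool.Agent.H39.HW (sm Av ln blk lab Reg)
open Pool.Agent.H65.HW (cell)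

/-! ### abstract tools (KOE VIZ PRT REG HAL2 HALC SEL GRE BLB TSA are those of HW) -/

/-- RNM [CHANGED: a set `Pt` of parts]: rounding of a matrix with integral row and column sums -/
def S_RNM : Prop :=
  ∀ (Pt C : Finset ℕ) (d : ℕ → ℕ → ℝ) (ρ E : ℕ → ℕ) (β0 : ℕ), β0 ∈ C → Pt.Nonempty →
    (∀ P ∈ Pt, ∀ β ∈ C, 0 ≤ d P β) → (∀ P ∈ Pt, ∑ β ∈ C, d P β = ρ P) →
    (∀ β ∈ C, ∑ P ∈ Pt, d P β = E β) → (∀ P ∈ Pt, (C.card : ℝ) * Pt.card ≤ d P β0) →
    ∃ d' : ℕ → ℕ → ℕ, (∀ P ∈ Pt, ∑ β ∈ C, d' P β = ρ P) ∧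
      (∀ β ∈ C, ∑ P ∈ Pt, d' P β = E β) ∧
      (∀ P ∈ Pt, ∀ β ∈ C, |(d' P β : ℝ) - d P β| ≤ C.card * Pt.card) ∧
      ∀ P ∈ Pt, ∀ β ∈ C, d P β = 0 → d' P β = 0

/-- EVD [CHANGED: only the cells `y` with `part y ∈ Pt`]: even distribution -/
def S_EVD : Prop :=
  ∀ (m : ℕ) (Pt C : Finset ℕ) (part φ : ℕ → ℕ) (dd : ℕ → ℕ → ℕ),
    (∀ y < m, part y ∈ Pt ↔ φ y ∈ C) →
    (∀ P ∈ Pt, ∀ β ∈ C, ((range m).filter fun y => part y = P ∧ φ y = β).card = 0 → dd P β = 0) →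
    ∃ r : ℕ → ℕ,
      (∀ y < m, part y ∈ Pt →
        r y * ((range m).filter fun y' => part y' = part y ∧ φ y' = φ y).card ≤
        dd (part y) (φ y) + ((range m).filter fun y' => part y' = part y ∧ φ y' = φ y).card) ∧
      (∀ P ∈ Pt, ∑ y ∈ (range m).filter (fun y => part y = P), r y = ∑ β ∈ C, dd P β) ∧
      ∀ β ∈ C, ∑ y ∈ (range m).filter (fun y => φ y = β), r y = ∑ P ∈ Pt, dd P β

/-- SELM [NEW]: many disjoint choices of edges, from SEL (`Pool.Agent.H65.HW.S_SEL`) by induction on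
`I`, every time in the graph of the edges not yet used -/
def S_SELM : Prop :=
  ∀ (V : Type) [Fintype V] (Γ : SimpleGraph V) (P Q : Finset V) (I : Finset ℕ) (r : ℕ → V → ℕ)
    (r0 d C : ℕ),
    Disjoint P Q → 1 ≤ d → (∀ i ∈ I, ∀ z ∈ P, r i z ≤ r0) →
    (∀ z ∈ P, d + I.card * r0 ≤ nb Γ Q z) → (∀ u ∈ Q, nb Γ P u ≤ C * d) →
    ∃ Λ : ℕ → SimpleGraph V, (∀ i, Λ i ≤ Γ) ∧
      (∀ i u v, (Λ i).Adj u v → i ∈ I ∧ ((u ∈ P ∧ v ∈ Q) ∨ (u ∈ Q ∧ v ∈ P))) ∧
      (∀ i j u v, (Λ i).Adj u v → (Λ j).Adj u v → i = j) ∧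
      (∀ i ∈ I, ∀ z ∈ P, nb (Λ i) Q z = r i z) ∧ ∀ i ∈ I, ∀ u ∈ Q, nb (Λ i) P u ≤ r0 * C

/-- XDI [NEW]: even distribution of `n` over `Y × Z` -/
def S_XDI : Prop :=
  ∀ (Y Z : Finset ℕ), Y.Nonempty → Z.Nonempty → ∃ rr : ℕ → ℕ → ℕ → ℕ, ∀ n : ℕ,
    ∑ b ∈ Y, ∑ β ∈ Z, rr n b β = n ∧
    ∀ b ∈ Y, ∀ β ∈ Z, rr n b β * (Y.card * Z.card) ≤ n + Y.card * Z.card

/-! ### the cells -/

/-- the situation: a regular graph, a scheme, and cells with nearly the right degrees: the cell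
`a ∈ R` (row) and the cell `B + y`, `y < m` (special cell) -/
structure Ctx {V : Type} [Fintype V] (G : SimpleGraph V) (D p : ℕ) (s : Dat) (cl : V → ℕ) :
    Prop where
  sch : Sch D p s
  reg : Reg G D
  val : ∀ v, cl v ∈ s.R ∨ (s.B ≤ cl v ∧ cl v < s.B + s.m)
  row : ∀ v, ∀ a ∈ s.R, |(nb G (cell cl a) v : ℝ) - s.μ * D| ≤ s.δ * D
  spe : ∀ v, ∀ y < s.m, |(nb G (cell cl (s.B + y)) v : ℝ) - s.ω * D| ≤ s.δ * D
  big : (100 : ℝ) * (s.m + 2) * (s.B + 2) * (s.H + 2) ≤ s.δ * D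

/-- CEL: the cells exist (S_PRT with `s.R.card + s.m ≤ B0 + m0` cells, `tot`) -/
def S_CEL : Prop :=
  ∀ (B0 m0 : ℕ) (δ : ℝ), 0 < δ → ∃ D0 : ℕ, ∀ D : ℕ, D0 ≤ D → ∀ (p : ℕ) (s : Dat), Sch D p s →
    s.B ≤ B0 → s.m ≤ m0 → s.H ≤ m0 → s.δ = δ → ∀ (V : Type) [Fintype V] (G : SimpleGraph V),
      Reg G D → ∃ cl : V → ℕ, Ctx G D p s cl

/-- DIST: `K` consecutive blocks have at least `p` labels -/
def S_DIST : Prop :=
  ∀ (D p : ℕ) (s : Dat), Sch D p s → ∀ a ∈ s.R, ∀ b ∈ s.R,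
    sm s.B a b < s.B ∧ Av s.st p a (sm s.B a b) ∧ Av s.st p b (sm s.B a b)

/-- the vertex labels `x` -/
structure Win {V : Type} [Fintype V] (G : SimpleGraph V) (D p : ℕ) (s : Dat) (cl x : V → ℕ) :
    Prop where
  row : ∀ v, cl v ∈ s.R → s.st (cl v) ≤ x v ∧ x v < s.st (cl v + 1)
  spA : ∀ v, s.B ≤ cl v → s.ty (s.part (cl v - s.B)) = true → x v < s.ξ
  spB : ∀ v, s.B ≤ cl v → s.ty (s.part (cl v - s.B)) = false →
    D + 2 * p ≤ x v + s.ξ ∧ x v < D + 2 * p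
  prp : ∀ u v, G.Adj u v → x u ≠ x v

/-- WIN: greedy in every row (`(μ + δ) D < ln`), greedy for the special vertices of type `true` in
`[0, ξ)` and of type `false` in `[N - ξ, N)` (`m (ω + δ) D < ξ`); the windows are disjoint
(`ξ ≤ p ≤ st K`) -/
def S_WIN : Prop :=
  ∀ (V : Type) [Fintype V] (G : SimpleGraph V) (D p : ℕ) (s : Dat) (cl : V → ℕ),
    Ctx G D p s cl → ∃ x : V → ℕ, Win G D p s cl x

/-- labels of the edges inside the rows -/
structure Loo {V : Type} [Fintype V] (G : SimpleGraph V) (s : Dat) (cl : V → ℕ)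
    (f : V → V → ℕ) : Prop where
  sym : ∀ u v, f u v = f v u
  mem : ∀ u v, G.Adj u v → cl u ∈ s.R → cl u = cl v → f u v ∈ blk s.st (sm s.B (cl u) (cl u))
  prp : ∀ u v w, G.Adj u v → G.Adj u w → cl u ∈ s.R → cl u = cl v → cl u = cl w → v ≠ w →
    f u v ≠ f u w

/-- LOO: Vizing inside every row (`(μ + δ) D + 1 ≤ ln`) -/
def S_LOO : Prop :=
  ∀ (V : Type) [Fintype V] (G : SimpleGraph V) (D p : ℕ) (s : Dat) (cl : V → ℕ),
    Ctx G D p s cl → ∃ f : V → V → ℕ, Loo G s cl f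

/-! ### the labels `T_z` -/

/-- the labels at distance at least `p` from `x z` which are in no class, in no reserved block, and
not on an edge inside the row -/
noncomputable def Tz {V : Type} [Fintype V] (G : SimpleGraph V) (D p : ℕ) (s : Dat)
    (cl x : V → ℕ) (f : V → V → ℕ) (z : V) : Finset ℕ :=
  (range (D + 2 * p)).filter fun n =>
    (n + p ≤ x z ∨ x z + p ≤ n) ∧ n ∉ lab s.st (s.cls p (cl z)) ∧
    (∀ P < s.H, n ∉ lab s.st (s.S P (cl z))) ∧
    ∀ v, G.Adj z v → cl v = cl z → f z v ≠ n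

/-- `n` can be in `T_z` for a vertex `z` of the row `a` -/
def Pt (s : Dat) (p a n : ℕ) : Prop :=
  n ∈ blk s.st (sm s.B a a) ∨
    ((n + p < s.st (a + 1) ∨ s.st a + p ≤ n) ∧
      ∀ β < s.B, Av s.st p a β → n ∉ blk s.st β)

/-- TZ1: the number of the labels in `T_z`: there are `D + 1` labels at distance at least `p` from
`x z ∈ [p, D + p)`; the blocks of `cls a`, of the `S P a` and the labels of the edges inside the row
(in the block `sm a a`) are disjoint and all of them at distance at least `p` (`Av`) -/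
def S_TZ1 : Prop :=
  ∀ (V : Type) [Fintype V] (G : SimpleGraph V) (D p : ℕ) (s : Dat) (cl x : V → ℕ)
    (f : V → V → ℕ), Ctx G D p s cl → Win G D p s cl x → Loo G s cl f →
    ∀ z, cl z ∈ s.R →
      (Tz G D p s cl x f z).card + ∑ β ∈ s.cls p (cl z), ln s.st β +
        ∑ P ∈ range s.H, (lab s.st (s.S P (cl z))).card + nb G (cell cl (cl z)) z = D + 1

/-- TZ2: `T_z` is not empty (the block `sm a a` has more labels than the number of edges inside the
row: `lnl`, `row`); the labels of `T_z` satisfy `Pt` -/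
def S_TZ2 : Prop :=
  ∀ (V : Type) [Fintype V] (G : SimpleGraph V) (D p : ℕ) (s : Dat) (cl x : V → ℕ)
    (f : V → V → ℕ), Ctx G D p s cl → Win G D p s cl x → Loo G s cl f →
    ∀ z, cl z ∈ s.R →
      1 ≤ (Tz G D p s cl x f z).card ∧ ∀ n ∈ Tz G D p s cl x f z, Pt s p (cl z) n

/-- TZ3: `T_z` has at most `15 μ D` labels (block `sm a a`: `≤ 3 μ D`; the labels `≥ x z + p` of
blocks `β` which are not available are in `[st a + p, st (a + 1) + p - 2 + 3 μ D)`, because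
`st β + 1 < st (a + 1) + p` and `ln β ≤ 3 μ D`; similarly on the left) -/
def S_TZ3 : Prop :=
  ∀ (V : Type) [Fintype V] (G : SimpleGraph V) (D p : ℕ) (s : Dat) (cl x : V → ℕ)
    (f : V → V → ℕ), Ctx G D p s cl → Win G D p s cl x → Loo G s cl f →
    ∀ z, cl z ∈ s.R → ((Tz G D p s cl x f z).card : ℝ) ≤ 15 * s.μ * D

/-- PTC: at most 16 rows can use the label `n`: if `n` is in the block `β`, then `sm a a = β` for at
most two `a`; otherwise `β` is not available for `a`, and on the right (`st a + p ≤ n`) this gives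
`st a + p ≤ n < st (β + 1)` and `st β + 1 < st (a + 1) + p`: the block `a` meets an interval of
length at most `3 μ D`, and blocks have more than `μ D` labels: at most 5 rows; same on the left -/
def S_PTC : Prop :=
  ∀ (D p : ℕ) (s : Dat), Sch D p s → ∀ n < D + 2 * p, (s.R.filter (fun a => Pt s p a n)).card ≤ 16

/-- the edges `T` between the rows and the special cells which get labels `c` from the sets `T_z` -/
structure Tgr {V : Type} [Fintype V] (G : SimpleGraph V) (D p : ℕ) (s : Dat) (cl x : V → ℕ)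
    (f : V → V → ℕ) (T : SimpleGraph V) (c : V → V → ℕ) : Prop where
  le : T ≤ G
  sup : ∀ u v, T.Adj u v → (cl u ∈ s.R ∧ s.B ≤ cl v) ∨ (s.B ≤ cl u ∧ cl v ∈ s.R)
  sym : ∀ u v, c u v = c v u
  prp : ∀ u v w, T.Adj u v → T.Adj u w → v ≠ w → c u v ≠ c u w
  mem : ∀ z u, T.Adj z u → cl z ∈ s.R → c z u ∈ Tz G D p s cl x f z
  deg : ∀ z, cl z ∈ s.R → nb T univ z + 1 = (Tz G D p s cl x f z).card
  tyA : ∀ z u, T.Adj z u → cl z ∈ s.R → s.ty (s.part (cl u - s.B)) = true → p + s.ξ ≤ c z u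
  tyB : ∀ z u, T.Adj z u → cl z ∈ s.R → s.ty (s.part (cl u - s.B)) = false →
    c z u + p + s.ξ ≤ D + 2 * p
  fre : ∀ z u, T.Adj z u → cl z ∈ s.R → c z u ∉ lab s.st (s.F (s.part (cl u - s.B)))
  ser : ∀ z u, T.Adj z u → cl z ∈ s.R → ∀ a ∈ s.R, c z u ∉ blk s.st (s.φ (cl u - s.B) a)
  few : ∀ z, cl z ∈ s.R → ∀ y < s.m,
    (nb T (cell cl (s.B + y)) z : ℝ) ≤ s.ρ1 / 8 * s.ω * D + 1

/-- TST: from TSA with `κ = ⌈ρ1 ω D / 8⌉`, `t = ⌊15 μ D⌋`, `Tp z` = `T_z` without one label,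
`w = ⌊.9 ω D⌋`, `ok n y`: the type of `y` is `true` iff `p + ξ ≤ n`, the block of `n` is not in
`F (part y)` and is not `φ y a` for any `a ∈ R`; at least `ρ3 / ω` cells by `fre`, and
`15 μ D / κ ≤ 120 μ / (ρ1 ω) ≤ .12 ρ3 / ω` by `rho3`; right degrees `≤ 16 (μ + δ) D` by PTC, TZ2 -/
def S_TST : Prop :=
  ∀ (V : Type) [Fintype V] (G : SimpleGraph V) (D p : ℕ) (s : Dat) (cl x : V → ℕ)
    (f : V → V → ℕ), Ctx G D p s cl → Win G D p s cl x → Loo G s cl f →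
    ∃ (T : SimpleGraph V) (c : V → V → ℕ), Tgr G D p s cl x f T c

/-! ### the moved edges -/

/-- number of the edges between `z` and the special cell `y` which are not in `T` -/
noncomputable def Nz {V : Type} [Fintype V] (G T : SimpleGraph V) (s : Dat) (cl : V → ℕ)
    (z : V) (y : ℕ) : ℕ := nb G (cell cl (s.B + y)) z - nb T (cell cl (s.B + y)) z

/-- the block of the edge `u v` between different rows: `bX u v` for the moved edges -/
noncomputable def be {V : Type} (s : Dat) (cl : V → ℕ) (X : SimpleGraph V) (bX : V → V → ℕ)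
    (u v : V) : ℕ :=
  if X.Adj u v then bX u v else sm s.B (cl u) (cl v)

/-- number of the edges between `z` and the other rows which use the block `β` -/
noncomputable def rz {V : Type} [Fintype V] (G : SimpleGraph V) (s : Dat) (cl : V → ℕ)
    (X : SimpleGraph V) (bX : V → V → ℕ) (z : V) (β : ℕ) : ℕ :=
  (univ.filter (fun v => G.Adj z v ∧ cl v ∈ s.R ∧ cl v ≠ cl z ∧ be s cl X bX z v = β)).card

/-- number of the labels of the block `β` which are free for the edges to special vertices -/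
noncomputable def pz {V : Type} [Fintype V] (G : SimpleGraph V) (s : Dat) (cl : V → ℕ)
    (X : SimpleGraph V) (bX : V → V → ℕ) (z : V) (β : ℕ) : ℕ := ln s.st β - rz G s cl X bX z β

/-- the moved edges `X` with their blocks `bX`; after the move the numbers are nearly what they should
be (`tol`), and the rigid vertices are balanced (`bal`) -/
structure Xgr {V : Type} [Fintype V] (G T : SimpleGraph V) (D p : ℕ) (s : Dat) (cl : V → ℕ)
    (X : SimpleGraph V) (bX : V → V → ℕ) : Prop where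
  le : X ≤ G
  sup : ∀ u v, X.Adj u v → (cl u ∈ s.R0 ∧ ∃ τ, cl v ∈ s.Y τ) ∨ ((∃ τ, cl u ∈ s.Y τ) ∧ cl v ∈ s.R0)
  sym : ∀ u v, bX u v = bX v u
  blo : ∀ z u τ, X.Adj z u → cl z ∈ s.R0 → cl u ∈ s.Y τ → bX z u ∈ s.Z τ
  tol : ∀ z, cl z ∈ s.R → ∀ β ∈ s.cls p (cl z), rz G s cl X bX z β ≤ ln s.st β ∧
    |(pz G s cl X bX z β : ℝ) - s.dem D (cl z) β * D| ≤ (s.δ + s.er (cl z)) * D
  bal : ∀ z, cl z ∈ s.R0 →
    ∑ β ∈ (s.cls p (cl z)).filter (fun β => decide (cl z < β) = false), pz G s cl X bX z β +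
      ∑ P ∈ (range s.H).filter (fun P => s.ty P = false), (lab s.st (s.S P (cl z))).card =
    ∑ y ∈ (range s.m).filter (fun y => s.ty (s.part y) = false), Nz G T s cl z y

/-- the imbalance of the rigid vertex `z` without moved edges -/
noncomputable def imb {V : Type} [Fintype V] (G T : SimpleGraph V) (p : ℕ) (s : Dat)
    (cl : V → ℕ) (z : V) : ℤ :=
  ∑ β ∈ (s.cls p (cl z)).filter (fun β => decide (cl z < β) = false),
      ((ln s.st β : ℤ) - rz G s cl ⊥ (fun _ _ => 0) z β) +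
    ∑ P ∈ (range s.H).filter (fun P => s.ty P = false), ((lab s.st (s.S P (cl z))).card : ℤ) -
    ∑ y ∈ (range s.m).filter (fun y => s.ty (s.part y) = false), (Nz G T s cl z y : ℤ)

/-- NDG [CHANGED DEG, first half]: the numbers `N_y` (see the HW version of DEG, TZ3) -/
def S_NDG : Prop :=
  ∀ (V : Type) [Fintype V] (G : SimpleGraph V) (D p : ℕ) (s : Dat) (cl x : V → ℕ)
    (f : V → V → ℕ) (T : SimpleGraph V) (c : V → V → ℕ), Ctx G D p s cl → Win G D p s cl x →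
    Loo G s cl f → Tgr G D p s cl x f T c → ∀ z, cl z ∈ s.R →
      (∀ y < s.m, (1 - s.ρ1 / 8) * s.ω * D - s.δ * D - 1 ≤ Nz G T s cl z y ∧
        (Nz G T s cl z y : ℝ) ≤ (s.ω + s.δ) * D) ∧
      s.m * s.ω * D - 15 * s.μ * D - s.m * s.δ * D ≤ ∑ y ∈ range s.m, (Nz G T s cl z y : ℝ)

/-- RZ0 [CHANGED DEG, second half]: without moved edges, `rz` is `nb G (cell b) z` if
`β = sm a b` with `b ∈ R`, `b ≠ a` (`b` is unique), 0 otherwise -/
def S_RZ0 : Prop :=
  ∀ (V : Type) [Fintype V] (G : SimpleGraph V) (D p : ℕ) (s : Dat) (cl : V → ℕ),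
    Ctx G D p s cl → ∀ z, cl z ∈ s.R → ∀ β, β < s.B →
      rz G s cl ⊥ (fun _ _ => 0) z β + 2 ≤ ln s.st β ∧
      |(ln s.st β : ℝ) - rz G s cl ⊥ (fun _ _ => 0) z β - s.dem D (cl z) β * D| ≤ s.δ * D

/-- XIM [NEW]: the imbalance is small: `bal` of Sch, RZ0, and
`∑_{y} |N y - ω D| ≤ 15 μ D + 3 m δ D` by NDG -/
def S_XIM : Prop :=
  ∀ (V : Type) [Fintype V] (G : SimpleGraph V) (D p : ℕ) (s : Dat) (cl x : V → ℕ)
    (f : V → V → ℕ) (T : SimpleGraph V) (c : V → V → ℕ), Ctx G D p s cl → Win G D p s cl x →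
    Loo G s cl f → Tgr G D p s cl x f T c → ∀ z, cl z ∈ s.R0 →
      |(imb G T p s cl z : ℝ)| ≤ (s.e2 + 18 * s.μ) * D

/-- XED [NEW]: existence of the moved edges, for any function `n τ z` bounded by
`(e2 + 18 μ) D` (number of edges at the rigid vertex `z` moved into `Z τ`).
For `a ∈ R0`, `b ∈ Y τ` apply SELM with `P = cell a`, `Q = cell b`, `I = Z τ`,
`r β z = rr (n τ z) b β` (XDI), `r0 = ⌊(e2 + 18 μ) D / (|Y τ| |Z τ|)⌋ + 1`, `d = ⌈μ D / 2⌉`, `C = 3`.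
`X` is the union, `bX z u = β` for the edges of `Λ β`.  By `xe` and `big`
`(B + 1) r0 ≤ er a D / 10`.  Changes of `rz`: at `z` at most `|Y| r0`, `|Z| r0`, at `u` at most
`3 |R0| r0`, `3 |Z| r0`.  `mv` is the number of edges at `z` which use a low block -/
def S_XED : Prop :=
  ∀ (V : Type) [Fintype V] (G : SimpleGraph V) (D p : ℕ) (s : Dat) (cl : V → ℕ)
    (n : Bool → V → ℕ), Ctx G D p s cl →
    (∀ τ z, cl z ∈ s.R0 → (n τ z : ℝ) ≤ (s.e2 + 18 * s.μ) * D) →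
    ∃ (X : SimpleGraph V) (bX : V → V → ℕ), X ≤ G ∧
      (∀ u v, X.Adj u v →
        (cl u ∈ s.R0 ∧ ∃ τ, cl v ∈ s.Y τ) ∨ ((∃ τ, cl u ∈ s.Y τ) ∧ cl v ∈ s.R0)) ∧
      (∀ u v, bX u v = bX v u) ∧
      (∀ z u τ, X.Adj z u → cl z ∈ s.R0 → cl u ∈ s.Y τ → bX z u ∈ s.Z τ) ∧
      (∀ z τ, cl z ∈ s.R0 →
        (univ.filter (fun v => X.Adj z v ∧ cl v ∈ s.Y τ)).card = n τ z) ∧
      ∀ z, cl z ∈ s.R → ∀ β,
        ((univ.filter (fun v => X.Adj z v ∧ bX z v = β)).card : ℝ) +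
          ((univ.filter (fun v => X.Adj z v ∧ sm s.B (cl z) (cl v) = β)).card : ℝ) ≤
            s.er (cl z) * D

/-- XGR [NEW]: from XED with `n false z = (imb z)⁺`, `n true z = (imb z)⁻` and RZ0, XIM: every edge
moved to `Z false` was in a high block (`xs`) and is now in a low one (`xc1`), and conversely, so the
sum of `rz` over the low classes grows by `imb z` -/
def S_XGR : Prop :=
  ∀ (V : Type) [Fintype V] (G : SimpleGraph V) (D p : ℕ) (s : Dat) (cl x : V → ℕ)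
    (f : V → V → ℕ) (T : SimpleGraph V) (c : V → V → ℕ), Ctx G D p s cl → Win G D p s cl x →
    Loo G s cl f → Tgr G D p s cl x f T c →
    ∃ (X : SimpleGraph V) (bX : V → V → ℕ), Xgr G T D p s cl X bX

/-! ### the left-over edges -/

/-- CNT [CHANGED]: the number of the remaining edges is the number of the remaining labels (every
edge between `z` and another row uses a class of `cl z`: `sm_mem_cls`, or `xc1`, `xc2` for moved
edges) -/
def S_CNT : Prop :=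
  ∀ (V : Type) [Fintype V] (G : SimpleGraph V) (D p : ℕ) (s : Dat) (cl x : V → ℕ)
    (f : V → V → ℕ) (T : SimpleGraph V) (c : V → V → ℕ) (X : SimpleGraph V) (bX : V → V → ℕ),
    Ctx G D p s cl → Win G D p s cl x →
    Loo G s cl f → Tgr G D p s cl x f T c → Xgr G T D p s cl X bX → ∀ z, cl z ∈ s.R →
      ∑ y ∈ range s.m, Nz G T s cl z y =
        ∑ β ∈ s.cls p (cl z), pz G s cl X bX z β +
          ∑ P ∈ range s.H, (lab s.st (s.S P (cl z))).card

/-- the numbers of one vertex of the row `a`: `N y` edges to the special cell `y` (without `T`),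
`π β` labels of the class `β` are free for them; only the parts `P ∈ Pt`, which serve exactly the
classes `β ∈ C` -/
structure Num (D p : ℕ) (s : Dat) (a : ℕ) (Pt C : Finset ℕ) (N π : ℕ → ℕ) : Prop where
  sch : Sch D p s
  big : (100 : ℝ) * (s.m + 2) * (s.B + 2) * (s.H + 2) ≤ s.δ * D
  aR : a ∈ s.R
  P1 : Pt ⊆ range s.H
  P2 : Pt.Nonempty
  C1 : C ⊆ s.cls p a
  ser : ∀ y < s.m, s.part y ∈ Pt ↔ s.φ y a ∈ C
  lo : ∀ y < s.m, (1 - s.ρ1 / 8) * s.ω * D - s.δ * D - 1 ≤ N y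
  up : ∀ y < s.m, (N y : ℝ) ≤ (s.ω + s.δ) * D
  sum : s.m * s.ω * D - 15 * s.μ * D - s.m * s.δ * D ≤ ∑ y ∈ range s.m, (N y : ℝ)
  pi : ∀ β ∈ C, |(π β : ℝ) - s.dem D a β * D| ≤ (s.δ + s.er a) * D
  cnt : ∑ y ∈ (range s.m).filter (fun y => s.part y ∈ Pt), N y =
    ∑ β ∈ C, π β + ∑ P ∈ Pt, (lab s.st (s.S P a)).card
  hu2 : ∀ β ∈ s.Hb a, β ∈ C → ∀ P ∈ Pt, s.kt a β ≤ 8 * s.H * s.k P a β
  hu3 : 64 * s.H * (s.e1 a + 40 * s.μ) ≤ ∑ β ∈ (s.Hb a).filter (fun β => β ∈ C), s.lo D a β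

/-- TRM [CHANGED]: the real matrix, as in HW with `Pt` and `C`; `|E β - lo β D| ≤ ρ1 ω kt D / 8 +
(kt + 1)(δ D + 2) + er D` with `40 er ≤ lo` (er1), `|g P| ≤ (e1 + 16 μ + B er) D ≤ (2 e1 + 16 μ) D`
(er2), and 64 instead of 32 in hu3 -/
def S_TRM : Prop :=
  ∀ (D p : ℕ) (s : Dat) (a : ℕ) (Pt C : Finset ℕ) (N π : ℕ → ℕ), Num D p s a Pt C N π →
    ∃ (E : ℕ → ℕ) (d : ℕ → ℕ → ℝ) (β0 : ℕ), β0 ∈ C ∧
      (∀ β ∈ C, ∑ y ∈ (range s.m).filter (fun y => s.φ y a = β), N y = π β + E β) ∧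
      (∀ P ∈ Pt, ∀ β ∈ C, 0 ≤ d P β ∧ d P β ≤ 2 * s.ρ2 * s.ω * D * s.k P a β) ∧
      (∀ P ∈ Pt, ∑ β ∈ C, d P β = (lab s.st (s.S P a)).card) ∧
      (∀ β ∈ C, ∑ P ∈ Pt, d P β = E β) ∧
      ∀ P ∈ Pt, (C.card : ℝ) * Pt.card ≤ d P β0

/-- TRN [CHANGED]: from TRM, RNM, EVD -/
def S_TRN : Prop :=
  ∀ (D p : ℕ) (s : Dat) (a : ℕ) (Pt C : Finset ℕ) (N π : ℕ → ℕ), Num D p s a Pt C N π →
    ∃ r : ℕ → ℕ, (∀ y < s.m, s.part y ∈ Pt → r y ≤ N y ∧ (r y : ℝ) ≤ 4 * s.ρ2 * s.ω * D) ∧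
      (∀ P ∈ Pt, ∑ y ∈ (range s.m).filter (fun y => s.part y = P), r y =
        (lab s.st (s.S P a)).card) ∧
      ∀ β ∈ C, ∑ y ∈ (range s.m).filter (fun y => s.φ y a = β), N y =
        π β + ∑ y ∈ (range s.m).filter (fun y => s.φ y a = β), r y

/-- TRZ [NEW]: for every vertex `z` of a row: not rigid: TRN with `Pt = range H`, `C = cls a`
(CNT, hb2, hb3); rigid: TRN for `τ = false, true` with `Pt = {P : ty P = τ}`,
`C = {β ∈ cls a : decide (a < β) = τ}` (rg0, rg1, `Xgr.bal` and CNT, hb2, hb4), and `r y` from the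
one with `ty (part y) = τ` -/
def S_TRZ : Prop :=
  ∀ (V : Type) [Fintype V] (G : SimpleGraph V) (D p : ℕ) (s : Dat) (cl x : V → ℕ)
    (f : V → V → ℕ) (T : SimpleGraph V) (c : V → V → ℕ) (X : SimpleGraph V) (bX : V → V → ℕ),
    Ctx G D p s cl → Win G D p s cl x →
    Loo G s cl f → Tgr G D p s cl x f T c → Xgr G T D p s cl X bX → ∀ z, cl z ∈ s.R →
    ∃ r : ℕ → ℕ, (∀ y < s.m, r y ≤ Nz G T s cl z y ∧ (r y : ℝ) ≤ 4 * s.ρ2 * s.ω * D) ∧
      (∀ P < s.H, ∑ y ∈ (range s.m).filter (fun y => s.part y = P), r y =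
        (lab s.st (s.S P (cl z))).card) ∧
      ∀ β ∈ s.cls p (cl z), ∑ y ∈ (range s.m).filter (fun y => s.φ y (cl z) = β), Nz G T s cl z y =
        pz G s cl X bX z β + ∑ y ∈ (range s.m).filter (fun y => s.φ y (cl z) = β), r y

/-- the left-over edges -/
structure Lgr {V : Type} [Fintype V] (G T : SimpleGraph V) (D p : ℕ) (s : Dat) (cl : V → ℕ)
    (X : SimpleGraph V) (bX : V → V → ℕ) (L : SimpleGraph V) : Prop where
  le : L ≤ G
  dis : ∀ u v, L.Adj u v → ¬ T.Adj u v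
  sup : ∀ u v, L.Adj u v → (cl u ∈ s.R ∧ s.B ≤ cl v) ∨ (s.B ≤ cl u ∧ cl v ∈ s.R)
  deg : ∀ z, cl z ∈ s.R → ∀ P < s.H,
    ∑ y ∈ (range s.m).filter (fun y => s.part y = P), nb L (cell cl (s.B + y)) z =
      (lab s.st (s.S P (cl z))).card
  ser : ∀ z, cl z ∈ s.R → ∀ β ∈ s.cls p (cl z),
    ∑ y ∈ (range s.m).filter (fun y => s.φ y (cl z) = β), Nz G T s cl z y =
      pz G s cl X bX z β +
        ∑ y ∈ (range s.m).filter (fun y => s.φ y (cl z) = β), nb L (cell cl (s.B + y)) z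
  rig : ∀ u, s.B ≤ cl u → ∀ a ∈ s.R, (nb L (cell cl a) u : ℝ) ≤ 16 * s.ρ2 * s.μ * D

/-- LFT [CHANGED: uses TRZ and NDG instead of TRN, CNT, DEG] -/
def S_LFT : Prop :=
  ∀ (V : Type) [Fintype V] (G : SimpleGraph V) (D p : ℕ) (s : Dat) (cl x : V → ℕ)
    (f : V → V → ℕ) (T : SimpleGraph V) (c : V → V → ℕ) (X : SimpleGraph V) (bX : V → V → ℕ),
    Ctx G D p s cl → Win G D p s cl x →
    Loo G s cl f → Tgr G D p s cl x f T c → Xgr G T D p s cl X bX →
    ∃ L : SimpleGraph V, Lgr G T D p s cl X bX L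

/-! ### the labels of the remaining edges -/

/-- labels of the left-over edges -/
structure Lef {V : Type} [Fintype V] (s : Dat) (cl : V → ℕ) (L : SimpleGraph V)
    (h : V → V → ℕ) : Prop where
  sym : ∀ u v, h u v = h v u
  mem : ∀ z u, L.Adj z u → cl z ∈ s.R → h z u ∈ lab s.st (s.S (s.part (cl u - s.B)) (cl z))
  prp : ∀ u v w, L.Adj u v → L.Adj u w → v ≠ w → h u v ≠ h u w

/-- LEF: as in HW -/
def S_LEF : Prop :=
  ∀ (V : Type) [Fintype V] (G T : SimpleGraph V) (D p : ℕ) (s : Dat) (cl : V → ℕ)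
    (X : SimpleGraph V) (bX : V → V → ℕ) (L : SimpleGraph V), Ctx G D p s cl →
    Lgr G T D p s cl X bX L → ∃ h : V → V → ℕ, Lef s cl L h

/-- the edges between different rows and the edges between rows and special vertices which are
neither in `T` nor in `L` -/
def Rem {V : Type} (G T L : SimpleGraph V) (s : Dat) (cl : V → ℕ) (u v : V) : Prop :=
  G.Adj u v ∧ ¬ T.Adj u v ∧ ¬ L.Adj u v ∧ cl u ≠ cl v ∧ (cl u ∈ s.R ∨ cl v ∈ s.R)

/-- labels of these edges -/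
structure Pal {V : Type} [Fintype V] (G T : SimpleGraph V) (s : Dat) (cl : V → ℕ)
    (X : SimpleGraph V) (bX : V → V → ℕ) (L : SimpleGraph V) (g : V → V → ℕ) : Prop where
  sym : ∀ u v, g u v = g v u
  row : ∀ u v, Rem G T L s cl u v → cl u ∈ s.R → cl v ∈ s.R →
    g u v ∈ blk s.st (be s cl X bX u v)
  ser : ∀ z u, Rem G T L s cl z u → cl z ∈ s.R → s.B ≤ cl u →
    g z u ∈ blk s.st (s.φ (cl u - s.B) (cl z))
  prp : ∀ u v w, Rem G T L s cl u v → Rem G T L s cl u w → v ≠ w → g u v ≠ g u w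

/-- PAL [CHANGED]: BLB with the groups `β < B`; the edge `u v` between rows is in the group `be u v`.
The row `a` is on the left side for `β` iff `lf β a = true` (or1 for the edges which are not moved,
or2, blo for the moved ones: rigid row on the left, row of `Y τ` on the right); the special vertices
`u` of the cell `y` with `φ y a = β` are on the other side than `a` (`a` is unique by ph2).
Degrees: at `z` exactly `rz + pz = ln β` (Lgr.ser, Xgr.tol) if `β` is in `cls`, otherwise 0; at `u` at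
most `(μ + δ) D ≤ ln β`. -/
def S_PAL : Prop :=
  ∀ (V : Type) [Fintype V] (G : SimpleGraph V) (D p : ℕ) (s : Dat) (cl x : V → ℕ)
    (f : V → V → ℕ) (T : SimpleGraph V) (c : V → V → ℕ) (X : SimpleGraph V) (bX : V → V → ℕ)
    (L : SimpleGraph V), Ctx G D p s cl →
    Win G D p s cl x → Loo G s cl f → Tgr G D p s cl x f T c → Xgr G T D p s cl X bX →
    Lgr G T D p s cl X bX L →
    ∃ g : V → V → ℕ, Pal G T s cl X bX L g

/-- labels of the edges between special vertices -/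
structure Yye {V : Type} [Fintype V] (G : SimpleGraph V) (s : Dat) (cl : V → ℕ)
    (k : V → V → ℕ) : Prop where
  sym : ∀ u v, k u v = k v u
  mem : ∀ u v, G.Adj u v → s.B ≤ cl u → s.B ≤ cl v →
    k u v ∈ lab s.st (s.Φ (s.part (cl u - s.B)) (s.part (cl v - s.B)))
  prp : ∀ u v w, G.Adj u v → G.Adj u w → s.B ≤ cl u → s.B ≤ cl v → s.B ≤ cl w → v ≠ w →
    k u v ≠ k u w

/-- YYE: as in HW -/
def S_YYE : Prop :=
  ∀ (V : Type) [Fintype V] (G : SimpleGraph V) (D p : ℕ) (s : Dat) (cl : V → ℕ),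
    Ctx G D p s cl → ∃ k : V → V → ℕ, Yye G s cl k

/-- ASM [CHANGED: the block of an edge between different rows is `be u v`, which is a class of both
rows] -/
def S_ASM : Prop :=
  ∀ (V : Type) [Fintype V] (G : SimpleGraph V) (D p : ℕ) (s : Dat) (cl x : V → ℕ)
    (f : V → V → ℕ) (T : SimpleGraph V) (c : V → V → ℕ) (X : SimpleGraph V) (bX : V → V → ℕ)
    (L : SimpleGraph V) (h g k : V → V → ℕ),
    Ctx G D p s cl → Win G D p s cl x → Loo G s cl f → Tgr G D p s cl x f T c →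
    Xgr G T D p s cl X bX →
    Lgr G T D p s cl X bX L → Lef s cl L h → Pal G T s cl X bX L g → Yye G s cl k →
    TotLab G p (D + 2 * p - 1)

end Pool.Agent.H65.HX
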