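import Pool.Agent.H65.HX.GBas

/-!
# Project HW: parts TZ3 and PTC
-/

set_option autoImplicit false
open Classical Finset

namespace Pool.Agent.H65.HX.Tt

open Pool.Agent.H21.HV (nb Prp TotLab)
open Pool.Agent.H39.HW (sm Av ln blk lab Reg)
open Pool.Agent.H65.HX
open Pool.Agent.H65.HW (cell S_KOE S_VIZ S_PRT S_REG S_GRE S_BLB S_TSA S_HAL2 S_HALC S_SEL Bip)

theorem t_TZ3 : S_TZ3 := by
  intro V _ G D p s cl x f hc hw hf z hz
  set L := ⌊3 * s.μ * D⌋₊ with hLdef
  have h3 : (0 : ℝ) ≤ 3 * s.μ * D := by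
    have := mu_pos hc.sch
    positivity
  have hL : ∀ β < s.B, ln s.st β ≤ L := fun β hβ => Nat.le_floor (hc.sch.lnu β hβ)
  have hLr : (L : ℝ) ≤ 3 * s.μ * D := Nat.floor_le h3
  obtain ⟨hx1, hx2⟩ := hw.row z hz
  have haB := row_lt hc.sch hz
  have hla := hL _ haB
  have hsma : sm s.B (cl z) (cl z) < s.B := (dist_rows hc.sch hz hz).1
  have hls := hL _ hsma
  have hsub : Tz G D p s cl x f z ⊆ blk s.st (sm s.B (cl z) (cl z)) ∪
      (Ico (s.st (cl z) + p) (s.st (cl z + 1) + p + L - 2) ∪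
        Ico (s.st (cl z) + 2 - p - L) (s.st (cl z + 1) - p)) := by
    intro n hn
    unfold Tz at hn
    rw [mem_filter, mem_range] at hn
    obtain ⟨hnN, hxn, hcl, hS, _⟩ := hn
    obtain ⟨β, hβ, hnβ⟩ := exists_blk hc.sch hnN
    by_cases hse : β = sm s.B (cl z) (cl z)
    · rw [mem_union]
      left
      rw [← hse]
      exact hnβ
    · have hav : ¬ Av s.st p (cl z) β := by
        intro hav
        refine hcl ((mem_lab_iff hc.sch.stm hnβ).2 (mem_cls.2 ⟨hβ, hav, hse, ?_⟩))
        intro P hP hβS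
        exact hS P hP ((mem_lab_iff hc.sch.stm hnβ).2 hβS)
      unfold Av at hav
      push Not at hav
      obtain ⟨ha1, ha2⟩ := hav
      rw [mem_blk] at hnβ
      have hlb := hL β hβ
      unfold ln at hlb hla
      rw [mem_union]
      right
      rw [mem_union, mem_Ico, mem_Ico]
      rcases hxn with h | h
      · right
        omega
      · left
        omega
  have hcard : (Tz G D p s cl x f z).card ≤ 5 * L := by
    refine le_trans (card_le_card hsub) ?_
    refine le_trans (card_union_le _ _) ?_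
    have h1 := card_union_le (Ico (s.st (cl z) + p) (s.st (cl z + 1) + p + L - 2))
      (Ico (s.st (cl z) + 2 - p - L) (s.st (cl z + 1) - p))
    rw [Nat.card_Ico, Nat.card_Ico] at h1
    rw [card_blk]
    unfold ln at hla
    omega
  have : ((Tz G D p s cl x f z).card : ℝ) ≤ 5 * L := by exact_mod_cast hcard
  linarith

theorem card_le_four (W : Finset ℕ) (h : ∀ a ∈ W, ∀ b ∈ W, b ≤ a + 3) : W.card ≤ 4 := by
  rcases W.eq_empty_or_nonempty with he | hne
  · simp [he]
  · have hsub : W ⊆ Ico (W.min' hne) (W.min' hne + 4) := by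
      intro b hb
      rw [mem_Ico]
      exact ⟨W.min'_le b hb, by have := h _ (W.min'_mem hne) b hb; omega⟩
    have := card_le_card hsub
    rw [Nat.card_Ico] at this
    omega

theorem grow {D p : ℕ} {s : Dat} (h : Sch D p s) (i j : ℕ) (hij : i + j ≤ s.B) :
    (s.st i : ℝ) + j * (s.μ * D + 2) ≤ s.st (i + j) := by
  induction j with
  | zero => simp
  | succ j ih =>
    have h1 := ih (by omega)
    have h2 := h.lnl (i + j) (by omega)
    have h3 : ((ln s.st (i + j) : ℕ) : ℝ) = (s.st (i + j + 1) : ℝ) - s.st (i + j) := by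
      unfold ln
      rw [Nat.cast_sub (h.stm _)]
    have h4 : 0 ≤ s.δ * D := mul_nonneg h.dpos.le (Nat.cast_nonneg D)
    rw [h3] at h2
    rw [show i + (j + 1) = i + j + 1 from rfl]
    push_cast
    nlinarith

theorem close_rows {D p : ℕ} {s : Dat} (h : Sch D p s) {a b : ℕ} (hb : b < s.B)
    (hab : (s.st b : ℝ) ≤ s.st (a + 1) + 3 * s.μ * D) : b ≤ a + 3 := by
  by_contra hc
  push Not at hc
  obtain ⟨j, rfl⟩ : ∃ j, b = a + 1 + (3 + j) := ⟨b - (a + 4), by omega⟩
  have h1 := grow h (a + 1) (3 + j) (by omega)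
  have h2 : 0 ≤ s.μ * D := mul_nonneg (mu_pos h).le (Nat.cast_nonneg D)
  have h3 : (0 : ℝ) ≤ j := Nat.cast_nonneg j
  push_cast at h1
  nlinarith

theorem t_PTC : S_PTC := by
  intro D p s h n hn
  set L := ⌊3 * s.μ * D⌋₊ with hLdef
  have h3 : (0 : ℝ) ≤ 3 * s.μ * D := by
    have := mu_pos h
    positivity
  have hL : ∀ β < s.B, ln s.st β ≤ L := fun β hβ => Nat.le_floor (h.lnu β hβ)
  have hLr : (L : ℝ) ≤ 3 * s.μ * D := Nat.floor_le h3
  obtain ⟨β, hβ, hnβ⟩ := exists_blk h hn
  have hsub : s.R.filter (fun a => Pt s p a n) ⊆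
      ({β / 2, (β + s.B) / 2} : Finset ℕ) ∪
        (s.R.filter (fun a => s.st a + p ≤ n ∧ ¬ Av s.st p a β) ∪
          s.R.filter (fun a => n + p < s.st (a + 1) ∧ ¬ Av s.st p a β)) := by
    intro a ha
    rw [mem_filter] at ha
    obtain ⟨haR, hpt⟩ := ha
    rw [mem_union]
    rcases hpt with h1 | ⟨h1, h2⟩
    · left
      have he := blk_unique h.stm hnβ h1
      have haB := row_lt h haR
      rw [mem_insert, mem_singleton]
      unfold sm at he
      split_ifs at he <;> omega
    · right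
      have hav : ¬ Av s.st p a β := fun hav => h2 β hβ hav hnβ
      rw [mem_union, mem_filter, mem_filter]
      rcases h1 with h1 | h1
      · exact Or.inr ⟨haR, h1, hav⟩
      · exact Or.inl ⟨haR, h1, hav⟩
  have hlb := hL β hβ
  rw [mem_blk] at hnβ
  unfold ln at hlb
  have hA : (s.R.filter (fun a => s.st a + p ≤ n ∧ ¬ Av s.st p a β)).card ≤ 4 := by
    apply card_le_four
    intro a ha b hb
    rw [mem_filter] at ha hb
    obtain ⟨haR, ha1, ha2⟩ := ha
    obtain ⟨hbR, hb1, hb2⟩ := hb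
    unfold Av at ha2
    push Not at ha2
    refine close_rows h (row_lt h hbR) ?_
    have : s.st b ≤ s.st (a + 1) + L := by omega
    have h5 : (s.st b : ℝ) ≤ s.st (a + 1) + L := by exact_mod_cast this
    linarith
  have hB : (s.R.filter (fun a => n + p < s.st (a + 1) ∧ ¬ Av s.st p a β)).card ≤ 4 := by
    apply card_le_four
    intro a ha b hb
    rw [mem_filter] at ha hb
    obtain ⟨haR, ha1, ha2⟩ := ha
    obtain ⟨hbR, hb1, hb2⟩ := hb
    unfold Av at hb2
    push Not at hb2
    refine close_rows h (row_lt h hbR) ?_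
    have : s.st b ≤ s.st (a + 1) + L := by omega
    have h5 : (s.st b : ℝ) ≤ s.st (a + 1) + L := by exact_mod_cast this
    linarith
  refine le_trans (card_le_card hsub) ?_
  refine le_trans (card_union_le _ _) ?_
  have h5 := card_union_le (s.R.filter (fun a => s.st a + p ≤ n ∧ ¬ Av s.st p a β))
    (s.R.filter (fun a => n + p < s.st (a + 1) ∧ ¬ Av s.st p a β))
  have h6 : ({β / 2, (β + s.B) / 2} : Finset ℕ).card ≤ 2 := card_le_two
  omega

end Pool.Agent.H65.HX.Tt
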