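import Pool.Agent.H65.HW.GraAll
import Pool.Agent.H65.HX.Cel
import Pool.Agent.H65.HX.Win
import Pool.Agent.H65.HX.Tz3
import Pool.Agent.H31.HX.Xgr
import Pool.Agent.H37.HX.Deg
import Pool.Agent.H4.HX.Evd
import Pool.Agent.H4.HX.Rnm
import Pool.Agent.H4.HX.Selm
import Pool.Agent.H4.HX.Xdi
import Pool.Agent.H4.HX.Xim
import Pool.Agent.H44.HX.Trz
import Pool.Agent.H59.HX.Tst
import Pool.Agent.H66.HX.Lft
import Pool.Agent.H66.HX.Trm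
import Pool.Agent.H66.HX.Trn
import Pool.Agent.H87.HX.Pal

/-!
# Project HX: the graph side, complete; the theorem from the scheme side
-/

set_option autoImplicit false

namespace Pool.Agent.H65.HX

open Pool.Agent.H21.HV (nb Prp TotLab)

theorem t_GRA (hCEL : S_CEL) (hWIN : S_WIN) (hLOO : S_LOO) (hTST : S_TST) (hXGR : S_XGR)
    (hLFT : S_LFT) (hLEF : S_LEF) (hPAL : S_PAL) (hYYE : S_YYE) (hASM : S_ASM) : S_GRA := by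
  intro B0 m0 δ hδ
  obtain ⟨D0, hD0⟩ := hCEL B0 m0 δ hδ
  refine ⟨D0, fun D hD p s hs hB hm hH hd V _ G hG => ?_⟩
  obtain ⟨cl, hc⟩ := hD0 D hD p s hs hB hm hH hd V G hG
  obtain ⟨x, hx⟩ := hWIN V G D p s cl hc
  obtain ⟨f, hf⟩ := hLOO V G D p s cl hc
  obtain ⟨T, c, hT⟩ := hTST V G D p s cl x f hc hx hf
  obtain ⟨X, bX, hX⟩ := hXGR V G D p s cl x f T c hc hx hf hT
  obtain ⟨L, hL⟩ := hLFT V G D p s cl x f T c X bX hc hx hf hT hX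
  obtain ⟨h, hh⟩ := hLEF V G T D p s cl X bX L hc hL
  obtain ⟨g, hg⟩ := hPAL V G D p s cl x f T c X bX L hc hx hf hT hX hL
  obtain ⟨k, hk⟩ := hYYE V G D p s cl hc
  exact hASM V G D p s cl x f T c X bX L h g k hc hx hf hT hX hL hh hg hk

theorem gra_all : S_GRA :=
  have hTZ3 := Pool.Agent.H65.HX.Tt.t_TZ3
  have hHAL2 := Pool.Agent.H68.HW.t_HAL2
  have hSEL := Pool.Agent.H44.HW.t_SEL (Pool.Agent.H54.HW.t_HALC hHAL2)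
  have hBLB := Pool.Agent.H87.HW.t_BLB Pool.Agent.H33.HW.t_KOE
  have hNDG := Pool.Agent.H37.HX.t_NDG hTZ3
  have hRZ0 := Pool.Agent.H37.HX.t_RZ0
  have hCNT := Pool.Agent.H37.HX.t_CNT Pool.Agent.H59.HX.t_TZ1
  have hTRN := Pool.Agent.H66.HX.t_TRN Pool.Agent.H66.HX.t_TRM Pool.Agent.H4.HX.t_RNM
    Pool.Agent.H4.HX.t_EVD
  t_GRA (Pool.Agent.H65.HX.Ce.t_CEL Pool.Agent.H69.HW.t_PRT) Pool.Agent.H65.HX.Wi.t_WIN
    (Pool.Agent.H65.HX.Wi.t_LOO Pool.Agent.H61.HW.t_VIZ)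
    (Pool.Agent.H59.HX.t_TST (Pool.Agent.H44.HW.t_TSA hHAL2)
      Pool.Agent.H59.HX.t_TZ2 hTZ3 Pool.Agent.H65.HX.Tt.t_PTC)
    (Pool.Agent.H31.HX.t_XGR
      (Pool.Agent.H31.HX.t_XED (Pool.Agent.H4.HX.t_SELM hSEL) Pool.Agent.H4.HX.t_XDI)
      (Pool.Agent.H4.HX.t_XIM hRZ0 hNDG) hRZ0)
    (Pool.Agent.H66.HX.t_LFT hSEL (Pool.Agent.H44.HX.t_TRZ hTRN hCNT hNDG) hNDG)
    (Pool.Agent.H87.HX.t_LEF hBLB) (Pool.Agent.H87.HX.t_PAL hBLB)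
    (Pool.Agent.H65.HX.Wi.t_YYE Pool.Agent.H79.HW.t_GRE) Pool.Agent.H59.HX.t_ASM

theorem fin_all (hSCH : S_SCH) : S_FIN := by
  obtain ⟨ε, B0, m0, δ, hε, hδ, D1, h1⟩ := hSCH
  obtain ⟨D2, h2⟩ := gra_all B0 m0 δ hδ
  refine ⟨ε, hε, max D1 D2, fun D hD p hp V _ G hG => ?_⟩
  obtain ⟨s, hs, hB, hm, hH, hd⟩ := h1 D (le_trans (le_max_left _ _) hD) p hp
  refine Pool.Agent.H33.HW.t_REG D p (D + 2 * p - 1) (fun V' _ G' hG' => ?_) V G hG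
  exact h2 D (le_trans (le_max_right _ _) hD) p s hs hB hm hH hd V' G' hG'

end Pool.Agent.H65.HX
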