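import Pool.Agent.H65.HX.SBas
import Pool.Agent.H65.HX.SStm

set_option autoImplicit false
open Classical Finset

namespace Pool.Agent.H65.HX.Sc

open Pool.Agent.H39.HW (sm Av ln blk lab)
open Pool.Agent.H65.HX

theorem va_delta {x : Prm} (hx : Par x) :
    10 ^ 9 * ((x.B : ℝ) + 2) * x.δ ≤ x.θ := by
  have h1 := hx.d1
  have hL : (1 : ℝ) ≤ x.L := by
    have := hx.Lge
    have : 1 ≤ x.L := by omega
    exact_mod_cast this
  have hh : (0 : ℝ) ≤ x.h := Nat.cast_nonneg _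
  have ht : (0 : ℝ) ≤ x.t := Nat.cast_nonneg _
  have hB : (0 : ℝ) ≤ x.B := Nat.cast_nonneg _
  have hd := hx.d0
  set m : ℝ := 2 * x.h * x.t with hm
  have hm0 : 0 ≤ m := by positivity
  have hd9 : 0 ≤ 10 ^ 9 * x.δ := by positivity
  have : (1 : ℝ) * 1 * (x.B + 2) * 1 ≤ (x.L : ℝ) * (m + 2) ^ 2 * (x.B + 2) * (2 * x.h + 2) := by
    gcongr
    · nlinarith
    · linarith
  have h2 := mul_le_mul_of_nonneg_left this hd9
  calc _ = 10 ^ 9 * x.δ * (1 * 1 * (x.B + 2) * 1) := by ring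
    _ ≤ _ := h2
    _ = _ := by ring
    _ ≤ _ := h1

set_option maxHeartbeats 1000000 in
theorem t_VA (h1 : S_BLK) (h2 : S_MMD) : S_VA := by
  intro x hx φ
  have hDpos := hx.Dpos
  have hLge : (8 * 10 ^ 6 : ℝ) ≤ x.L := by exact_mod_cast hx.Lge
  have hL0 : (0 : ℝ) < x.L := by linarith
  have hhge : (1000 : ℝ) ≤ x.h := by exact_mod_cast hx.h1
  have ht1 : (1 : ℝ) ≤ x.t := by exact_mod_cast hx.t1
  have hm0 : (0 : ℝ) < 2 * x.h * x.t := by positivity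
  have hB := hx.b1_le_B
  have hb1 : x.b1 = x.K + x.J + x.M := rfl
  have hKJ := hx.KJ
  have hJ := hx.J1
  have hB0 : (0 : ℝ) ≤ x.B := Nat.cast_nonneg _
  have hdel := va_delta hx
  have hmu := hx.m0
  have hth := hx.t0
  have heta := hx.eta_le
  have hn1 := hx.n1
  have hthle := hx.th_le
  have hd0 := hx.d0
  have hmuB : 1 / 2 ≤ ((x.B : ℝ) + 2) * x.μ := by
    have := hx.Bmu.1
    nlinarith
  have hmcast : (((2 * x.h * x.t : ℕ)) : ℝ) = 2 * x.h * x.t := by push_cast; ring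
  have hD2 := hx.D2
  -- `2 δ ≤ small * θ μ`
  have hdel2 : 10 ^ 8 * x.δ ≤ x.θ * x.μ := by
    have a1 : 10 ^ 9 * ((x.B : ℝ) + 2) * x.δ * x.μ ≤ x.θ * x.μ :=
      mul_le_mul_of_nonneg_right hdel hmu.le
    have a2 : 10 ^ 9 * x.δ * (1 / 2) ≤ 10 ^ 9 * x.δ * (((x.B : ℝ) + 2) * x.μ) :=
      mul_le_mul_of_nonneg_left hmuB (by positivity)
    nlinarith
  have hηθ : x.η * x.θ ≤ 1 := by
    have : x.η * x.θ ≤ 1 * 1 := mul_le_mul (by linarith) (by linarith) hth.le (by norm_num)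
    linarith
  have hxi : (x.J : ℝ) * x.w2 ≤ 1 / 100 * x.D := by
    have a1 := hx.w2_le2
    rw [div_le_iff₀ hDpos] at a1
    have a2 := hx.Jmu.2
    have a3 : (x.J : ℝ) * x.w2 ≤ x.J * (101 / 100 * x.μ * x.D) :=
      mul_le_mul_of_nonneg_left a1 (Nat.cast_nonneg _)
    have a4 : x.J * (101 / 100 * x.μ * x.D) = 101 / 100 * (x.J * x.μ) * x.D := by ring
    have a5 : 101 / 100 * (x.J * x.μ) * x.D ≤ 1 / 100 * x.D :=
      mul_le_mul_of_nonneg_right (by linarith) hDpos.le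
    linarith
  have hpD : 49 / 100 * (x.D : ℝ) ≤ x.p := by
    have a1 := (abs_le.1 hx.c1).1
    have a2 : 49 / 100 ≤ (x.p : ℝ) / x.D := by linarith
    rwa [le_div_iff₀ hDpos] at a2
  refine ⟨hx.p1, ?_, ?_, ?_, ?_, ?_, ?_, ?_, ?_, ?_, ?_, ?_, ?_, ?_, ?_, ?_, ?_, ?_, ?_, ?_⟩
  · show 2 * x.K + 2 ≤ x.B
    omega
  · intro a ha
    exact hx.mem_R.1 ha
  · show 1 ≤ 2 * x.h
    have := hx.h1
    omega
  · show 1 ≤ 2 * x.h * x.t
    have a1 := hx.h1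
    have a2 := hx.t1
    calc 1 = 1 * 1 := rfl
      _ ≤ 2 * x.h * x.t := Nat.mul_le_mul (by omega) a2
  · intro i hi
    exact (h1 x hx).2.2.2.1 i x.K (by omega) hi
  · intro β hβ
    show (x.μ + 2 * x.δ) * x.D + 2 ≤ ((ln x.st β : ℕ) : ℝ)
    have a1 : (x.w2 : ℝ) ≤ ln x.st β := by
      exact_mod_cast ((h1 x hx).2.2.2.2.2.2.2.2.2.2 β hβ).1
    have a2 := hx.w2_ge
    rw [le_div_iff₀ hDpos] at a2
    have a3 : 10 ^ 9 * 1 ≤ x.η * x.θ * x.μ * x.D := by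
      refine le_trans ?_ hD2
      have : (1:ℝ) ≤ (x.B : ℝ) + 1 := by linarith
      nlinarith
    have h0 : 0 ≤ x.θ * x.μ * x.D := by positivity
    have a4 : 2 * x.δ * x.D ≤ 1 / 100 * (x.θ * x.μ * x.D) := by
      have : 2 * x.δ ≤ 1 / 100 * (x.θ * x.μ) := by nlinarith
      nlinarith
    have a5 : x.η * x.θ * x.μ * x.D ≤ x.θ * x.μ * x.D := by
      have : x.η * (x.θ * x.μ * x.D) ≤ 1 * (x.θ * x.μ * x.D) :=
        mul_le_mul_of_nonneg_right (by linarith) h0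
      nlinarith
    have a6 : x.η * x.θ * x.μ * x.D ≤ 1 / 10 ^ 18 * (x.θ * x.μ * x.D) := by
      have : x.η * (x.θ * x.μ * x.D) ≤ 1 / 10 ^ 18 * (x.θ * x.μ * x.D) :=
        mul_le_mul_of_nonneg_right heta h0
      nlinarith
    nlinarith
  · intro β hβ
    show ((ln x.st β : ℕ) : ℝ) ≤ 3 * x.μ * x.D
    have a1 : ((ln x.st β : ℕ) : ℝ) ≤ x.v + x.M := by
      exact_mod_cast ((h1 x hx).2.2.2.2.2.2.2.2.2.2 β hβ).2
    have a2 := hx.v_le2
    rw [div_le_iff₀ hDpos] at a2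
    have a3 := hx.Msmall
    rw [div_le_iff₀ hDpos] at a3
    have a4 : x.η * x.θ * x.μ / 10 ^ 9 * x.D ≤ 1 * (x.μ * x.D) := by
      have : x.η * x.θ / 10 ^ 9 ≤ 1 := by linarith
      have h0 : 0 ≤ x.μ * x.D := by positivity
      calc x.η * x.θ * x.μ / 10 ^ 9 * x.D = (x.η * x.θ / 10 ^ 9) * (x.μ * x.D) := by ring
        _ ≤ 1 * (x.μ * x.D) := mul_le_mul_of_nonneg_right this h0
    have h0 : 0 ≤ x.μ * x.D := by positivity
    nlinarith
  · exact hx.d0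
  · show x.θ / (2 * x.h * x.t) ≤ x.μ
    rw [div_le_iff₀ hm0]
    have a1 := hx.t2
    have a3 : (x.B : ℝ) ≤ x.t := by
      have b1 : (1 : ℝ) * x.B ≤ 10 ^ 20 * (x.L : ℝ) ^ 3 * x.B := by
        refine mul_le_mul_of_nonneg_right ?_ hB0
        have : (1 : ℝ) ≤ (x.L : ℝ) ^ 3 := one_le_pow₀ (by linarith)
        linarith
      have b2 : x.η * x.t ≤ 1 * x.t := mul_le_mul_of_nonneg_right (by linarith) (by linarith)
      linarith
    have a4 : ((x.B : ℝ) + 2) ≤ 3 * x.t := by linarith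
    have a5 : 1 / 2 ≤ 3 * x.t * x.μ := hmuB.trans (mul_le_mul_of_nonneg_right a4 hmu.le)
    have a6 : x.t * x.μ ≤ x.t * x.μ * x.h := by
      have : 0 ≤ x.t * x.μ := by positivity
      nlinarith
    nlinarith
  · show 0 < 1 / (200 * (x.L : ℝ))
    positivity
  · show 1 / (200 * (x.L : ℝ)) ≤ 1 / (32 * (x.L : ℝ))
    apply one_div_le_one_div_of_le (by positivity)
    linarith
  · show 1 / (32 * (x.L : ℝ)) ≤ 1 / 16
    apply one_div_le_one_div_of_le (by norm_num)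
    linarith
  · show 10 ^ 4 * (((2 * x.h * x.t : ℕ) : ℝ) + 2) * (x.B + 2) * (((2 * x.h : ℕ) : ℝ) + 2) * x.δ ≤
      1 / (200 * x.L) * (x.θ / (2 * x.h * x.t))
    rw [hmcast]
    push_cast
    set m : ℝ := 2 * x.h * x.t with hm
    have a1 := hx.d1
    rw [← hm] at a1
    clear_value m
    have hLp := hL0
    generalize (x.L : ℝ) = L at a1 hLp ⊢
    generalize (x.B : ℝ) = B at a1 hB0 ⊢
    generalize (x.h : ℝ) = h at a1 hhge ⊢
    generalize x.θ = θ at a1 ⊢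
    generalize x.δ = δ at a1 hd0 ⊢
    rw [div_mul_div_comm, one_mul, le_div_iff₀ (by positivity)]
    have a2 : 0 ≤ L * (B + 2) * (2 * h + 2) * δ := by positivity
    have a3 : 2 * 10 ^ 6 * ((m + 2) * m) ≤ 10 ^ 9 * ((m + 2) ^ 2) := by nlinarith
    have a4 := mul_le_mul_of_nonneg_right a3 a2
    have e1 : 10 ^ 4 * (m + 2) * (B + 2) * (2 * h + 2) * δ * (200 * L * m)
        = 2 * 10 ^ 6 * ((m + 2) * m) * (L * (B + 2) * (2 * h + 2) * δ) := by ring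
    have e2 : 10 ^ 9 * ((m + 2) ^ 2) * (L * (B + 2) * (2 * h + 2) * δ)
        = 10 ^ 9 * L * (m + 2) ^ 2 * (B + 2) * (2 * h + 2) * δ := by ring
    rw [e1]
    rw [e2] at a4
    exact a4.trans a1
  · show (x.R.card : ℝ) * x.μ + ((2 * x.h * x.t : ℕ) : ℝ) * (x.θ / (2 * x.h * x.t)) = 1
    rw [hmcast, mul_div_cancel₀ _ hm0.ne']
    have a1 := (h2 x hx).1
    have a2 : (x.R.card : ℝ) = (x.M : ℝ) + 2 * x.J - 1 := by
      rw [a1, Nat.cast_sub (by omega)]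
      push_cast; ring
    rw [a2]
    unfold Prm.θ
    ring
  · show ((2 * x.h * x.t : ℕ) : ℝ) * (x.θ / (2 * x.h * x.t) + x.δ) * x.D + 2 ≤
      ((x.J * x.w2 : ℕ) : ℝ)
    rw [hmcast, mul_add, mul_div_cancel₀ _ hm0.ne']
    have := hx.xi
    push_cast
    linarith
  · show x.J * x.w2 ≤ x.p
    have : ((x.J * x.w2 : ℕ) : ℝ) ≤ (x.p : ℝ) := by
      push_cast
      linarith
    exact_mod_cast this
  · show 2 * (x.J * x.w2) ≤ x.D
    have : ((2 * (x.J * x.w2) : ℕ) : ℝ) ≤ (x.D : ℝ) := by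
      push_cast
      linarith
    exact_mod_cast this
  · intro y hy
    show y / x.t < 2 * x.h
    have hy' : y < 2 * x.h * x.t := hy
    exact Nat.div_lt_of_lt_mul (by rw [mul_comm]; exact hy')
  · show 1000 * x.μ ≤ 1 / (200 * x.L) * (x.θ / 200)
    have a1 := hx.mu_smallL
    rw [div_mul_div_comm, one_mul, le_div_iff₀ (by positivity)]
    have a2 := hx.L_le_L4
    have a3 : (x.L : ℝ) * x.μ ≤ (x.L : ℝ) ^ 4 * x.μ := mul_le_mul_of_nonneg_right a2 hmu.le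
    have a4 : 0 ≤ (x.L : ℝ) * x.μ := by positivity
    have a5 : x.η * x.θ ≤ 1 * x.θ := mul_le_mul_of_nonneg_right (by linarith) hth.le
    nlinarith

end Pool.Agent.H65.HX.Sc
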