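import Pool.Agent.H65.HX.SBas
import Pool.Agent.H65.HX.SStm

set_option autoImplicit false
open Classical Finset

namespace Pool.Agent.H65.HX.Sc

open Pool.Agent.H39.HW (sm Av ln blk lab)
open Pool.Agent.H65.HX

theorem t_ALL (hB : S_BLK) : S_ALL := by
  intro x hx β hβ
  obtain ⟨h0, hBB, hstm, hKn, hk1, -, -, -, -, -, hk2⟩ := hB x hx
  have hm : Monotone x.st := monotone_nat_of_le_succ hstm
  have hKJW := hx.KhW
  have hKhK := hx.KhK
  have hb1 := hx.b1_le_B
  have hb0 : x.b0 = x.K + x.J := rfl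
  have hw : x.w2 ≤ x.w1 := hx.w12.le
  constructor
  · intro h
    show (if true = true then x.p + x.J * x.w2 ≤ x.st β
      else x.st (β + 1) + x.p + x.J * x.w2 ≤ x.D + 2 * x.p)
    rw [if_pos rfl]
    have h1 := hKn x.J x.K (by omega) (by omega)
    have h2 : x.st (x.J + x.K) ≤ x.st β := hm (by omega)
    have h3 : ∀ i, i ≤ x.J → i * x.w2 ≤ x.st i := by
      intro i
      induction i with
      | zero => simp
      | succ i ih =>
        intro hi
        have a1 := ih (by omega)
        have a2 := (hk2 i (by omega)).1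
        have a3 := hstm i
        unfold ln at a2
        have : (i + 1) * x.w2 = i * x.w2 + x.w2 := by ring
        omega
    have := h3 x.J le_rfl
    omega
  · intro h
    show (if false = true then x.p + x.J * x.w2 ≤ x.st β
      else x.st (β + 1) + x.p + x.J * x.w2 ≤ x.D + 2 * x.p)
    rw [if_neg (by simp)]
    have h1 := hKn x.b1 x.K (by omega) (by omega)
    have h2 : x.st (β + 1) ≤ x.st x.b1 := hm (by omega)
    have h3 : ∀ i, i ≤ x.J → x.st (x.b1 + x.K) + i * x.w2 ≤ x.st (x.b1 + x.K + i) := by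
      intro i
      induction i with
      | zero => simp
      | succ i ih =>
        intro hi
        have a1 := ih (by omega)
        have a2 := (hk2 (x.b1 + x.K + i) (by omega)).1
        have a3 := hstm (x.b1 + x.K + i)
        unfold ln at a2
        have : (i + 1) * x.w2 = i * x.w2 + x.w2 := by ring
        have e : x.b1 + x.K + (i + 1) = x.b1 + x.K + i + 1 := by ring
        rw [e]
        omega
    have := h3 x.J le_rfl
    rw [hb1, hBB] at this
    omega

theorem card_lab_eq {st : ℕ → ℕ} (h : ∀ β, st β ≤ st (β + 1)) (T : Finset ℕ) :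
    (lab st T).card = ∑ β ∈ T, ln st β := by
  have hm : Monotone st := monotone_nat_of_le_succ h
  unfold lab
  rw [Finset.card_biUnion]
  · exact Finset.sum_congr rfl fun β _ => by simp [blk, ln]
  · intro β _ β' _ hne
    show Disjoint (blk st β) (blk st β')
    rw [Finset.disjoint_left]
    intro n hn hn'
    simp only [blk, Finset.mem_Ico] at hn hn'
    rcases lt_or_gt_of_ne hne with hlt | hlt
    · have := hm (Nat.succ_le_of_lt hlt)
      simp only [Nat.succ_eq_add_one] at this
      omega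
    · have := hm (Nat.succ_le_of_lt hlt)
      simp only [Nat.succ_eq_add_one] at this
      omega

theorem mem_S' {x : Prm} {P a β : ℕ} : β ∈ x.S P a ↔
    β < x.B ∧ β / x.W = x.win (x.tp P) a ∧ β % x.L = 4 * x.h ^ 2 + P := by
  unfold Prm.S
  rw [Finset.mem_filter, Finset.mem_range]

theorem t_VB (hB : S_BLK) (hM : S_MMD) (hW : S_WIN) (hA : S_ALL) : S_VB := by
  intro x hx φ
  have hDpos := hx.Dpos
  have hstm : ∀ β, x.st β ≤ x.st (β + 1) := (hB x hx).2.2.1
  have hdisj : ∀ P Q a b, P ≠ Q → Disjoint (x.S P a) (x.S Q b) := by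
    intro P Q a b hPQ
    rw [Finset.disjoint_left]
    intro β h1 h2
    rw [mem_S'] at h1 h2
    omega
  have hb1B := hx.b1_le_B
  refine ⟨?_, ?_, ?_, ?_⟩
  · intro P hP a ha β hβ
    have ha' : a ∈ x.R := ha
    have hβ' : β ∈ x.S P a := hβ
    rw [mem_S'] at hβ'
    obtain ⟨g1, g2, g3⟩ := hβ'
    have hw := (hW x hx a ha' (x.tp P)).1 β g2
    obtain ⟨w1, w2, w3, w4, w5⟩ := hw
    have hmm := (hM x hx).2 a ha'
    refine ⟨g1, w2, ?_, ?_, ?_, ?_⟩
    · intro hc
      exact ((hmm.1 β).1 hc).2.1 w3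
    · intro hc
      apply hmm.2.2.2
      have : β = sm x.B a a := hc
      rw [← this]
      exact w3
    · show x.d0.Al x.D x.p (x.tp P) β
      rcases hτ : x.tp P with _ | _
      · exact (hA x hx β g1).2 (w5 hτ).2.1
      · exact (hA x hx β g1).1 (w4 hτ).2.1
    · show β ∈ x.F P
      unfold Prm.F
      rw [Finset.mem_filter, Finset.mem_range]
      exact ⟨g1, Or.inr g3⟩
  · intro P _ Q _ hPQ a _
    exact hdisj P Q a a hPQ
  · intro P _ a _ b _
    show x.S P a = x.S P b ∨ Disjoint (x.S P a) (x.S P b)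
    by_cases hab : x.win (x.tp P) a = x.win (x.tp P) b
    · left
      ext β
      rw [mem_S', mem_S', hab]
    · right
      rw [Finset.disjoint_left]
      intro β h1 h2
      rw [mem_S'] at h1 h2
      exact hab (h1.2.1.symm.trans h2.2.1)
  · intro P hP a ha
    have ha' : a ∈ x.R := ha
    have hP' : P < 2 * x.h := hP
    show ((x.R.filter fun b => x.S P b = x.S P a).card : ℝ) * (16 * (1 / (32 * x.L)) * x.μ) * x.D ≤
      ((lab x.st (x.S P a)).card : ℝ)
    have hq := (hW x hx a ha' (x.tp P)).2.2.1 P hP'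
    have hcard := (hW x hx a ha' (x.tp P)).2.2.2
    have h1 : (x.R.filter fun b => x.S P b = x.S P a).card ≤ x.W := by
      refine le_trans (Finset.card_le_card ?_) hcard
      intro b hb'
      rw [Finset.mem_filter] at hb' ⊢
      refine ⟨hb'.1, ?_⟩
      have hne : (x.S P a).Nonempty := by
        rw [← Finset.card_pos, hq]
        exact hx.q1
      obtain ⟨β, hβ⟩ := hne
      have hβ2 := hβ
      rw [← hb'.2] at hβ2
      rw [mem_S'] at hβ hβ2
      exact hβ2.2.1.symm.trans hβ.2.1
    have h2 : x.q * x.w2 ≤ (lab x.st (x.S P a)).card := by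
      rw [card_lab_eq hstm]
      calc x.q * x.w2 = ∑ _β ∈ x.S P a, x.w2 := by rw [Finset.sum_const, hq, smul_eq_mul]
        _ ≤ _ := by
          apply Finset.sum_le_sum
          intro β hβ
          rw [mem_S'] at hβ
          exact ((hB x hx).2.2.2.2.2.2.2.2.2.2 β hβ.1).1
    have hL0 : (0 : ℝ) < x.L := hx.Lpos
    have hmu := hx.m0
    have h3 : ((x.R.filter fun b => x.S P b = x.S P a).card : ℝ) ≤ (x.L * x.q) := by
      have : (x.R.filter fun b => x.S P b = x.S P a).card ≤ (x.L * x.q) := h1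
      exact_mod_cast this
    have h4 : x.μ * x.D ≤ x.w2 := by
      have := hx.mu_le_w2
      rwa [le_div_iff₀ hDpos] at this
    have h5 : ((x.q * x.w2 : ℕ) : ℝ) ≤ ((lab x.st (x.S P a)).card : ℝ) := by exact_mod_cast h2
    refine le_trans ?_ h5
    have h6 : (0 : ℝ) ≤ x.q * x.w2 := by positivity
    calc ((x.R.filter fun b => x.S P b = x.S P a).card : ℝ) * (16 * (1 / (32 * x.L)) * x.μ) * x.D
        ≤ ((x.L * x.q)) * (16 * (1 / (32 * x.L)) * x.μ) * x.D := by
          gcongr
      _ = 1 / 2 * (x.q * (x.μ * x.D)) := by field_simp; ring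
      _ ≤ 1 / 2 * (x.q * x.w2) := by gcongr
      _ ≤ x.q * x.w2 := by linarith
      _ = ((x.q * x.w2 : ℕ) : ℝ) := by push_cast; ring

/-- the number of `β` in an interval with a given residue -/
theorem count_res {L r a M : ℕ} (hr : r < L) :
    M ≤ ((Finset.Ico a (a + M)).filter fun β => β % L = r).card * L + L := by
  have hL : 0 < L := by omega
  -- first element
  obtain ⟨c, hc1, hc2, hc3⟩ : ∃ c, a ≤ c ∧ c < a + L ∧ c % L = r := by
    refine ⟨if r < a % L then a - a % L + L + r else a - a % L + r, ?_, ?_, ?_⟩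
    · have h1 := Nat.mod_le a L
      have h2 := Nat.mod_lt a hL
      split_ifs with h <;> omega
    · have h1 := Nat.mod_le a L
      have h2 := Nat.mod_lt a hL
      split_ifs with h <;> omega
    · have h1 := Nat.div_add_mod a L
      have e : a - a % L = L * (a / L) := by omega
      rw [e]
      split_ifs with h
      · have : L * (a / L) + L + r = L * (a / L + 1) + r := by ring
        rw [this, Nat.mul_add_mod, Nat.mod_eq_of_lt hr]
      · rw [Nat.mul_add_mod, Nat.mod_eq_of_lt hr]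
  by_cases hM : M ≤ L
  · calc M ≤ L := hM
      _ ≤ _ := Nat.le_add_left _ _
  push Not at hM
  set n := (M - L) / L + 1 with hn
  have hsub : (range n).image (fun j => c + L * j) ⊆
      (Finset.Ico a (a + M)).filter fun β => β % L = r := by
    intro i hi
    rw [Finset.mem_image] at hi
    obtain ⟨j, hj, rfl⟩ := hi
    rw [Finset.mem_range] at hj
    rw [Finset.mem_filter, Finset.mem_Ico]
    have h2 : L * ((M - L) / L) ≤ M - L := Nat.mul_div_le _ L
    have h3 : L * j ≤ L * ((M - L) / L) := Nat.mul_le_mul_left _ (by omega)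
    refine ⟨⟨by omega, by omega⟩, ?_⟩
    rw [add_comm, Nat.mul_add_mod]
    exact hc3
  have h1 := Finset.card_le_card hsub
  rw [Finset.card_image_of_injective, Finset.card_range] at h1
  · have h2 := Nat.div_add_mod (M - L) L
    have h3 := Nat.mod_lt (M - L) hL
    have h4 := Nat.mul_le_mul_right L h1
    have h5 : n * L = L * ((M - L) / L) + L := by rw [hn]; ring
    omega
  · intro i j hij
    have : c + L * i = c + L * j := hij
    have : L * i = L * j := by omega
    exact Nat.eq_of_mul_eq_mul_left hL this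

theorem t_VC (hB : S_BLK) (hA : S_ALL) : S_VC := by
  intro x hx φ
  have hDpos := hx.Dpos
  have hBB := hx.b1_le_B
  have hhge := hx.h1
  have hmΦ : ∀ P Q β, β ∈ x.Φ P Q ↔ (x.b0 ≤ β ∧ β < x.b1) ∧ (β % x.L < 4 * x.h ^ 2 ∧
    ((β % x.L / (2 * x.h) = P ∧ β % x.L % (2 * x.h) = Q) ∨
     (β % x.L / (2 * x.h) = Q ∧ β % x.L % (2 * x.h) = P))) := by
    intro P Q β
    unfold Prm.Φ
    rw [Finset.mem_filter]
    unfold Prm.mid
    rw [Finset.mem_Ico]
  have hstm : ∀ β, x.st β ≤ x.st (β + 1) := (hB x hx).2.2.1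
  refine ⟨?_, ?_, ?_⟩
  · intro P _ Q _
    show x.Φ P Q = x.Φ Q P
    ext β
    rw [hmΦ, hmΦ]
    tauto
  · intro P hP Q hQ β hβ
    have hβ' : β ∈ x.Φ P Q := hβ
    rw [hmΦ] at hβ'
    obtain ⟨⟨g1, g2⟩, g3, g4⟩ := hβ'
    have hβB : β < x.B := by omega
    refine ⟨hβB, ?_, ?_, ?_⟩
    · show x.d0.Al x.D x.p (x.tp P) β
      rcases hτ : x.tp P with _ | _
      · exact (hA x hx β hβB).2 g2
      · exact (hA x hx β hβB).1 g1
    · show β ∈ x.F P
      unfold Prm.F
      rw [Finset.mem_filter, Finset.mem_range]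
      refine ⟨hβB, Or.inl ⟨g3, ?_⟩⟩
      rcases g4 with g4 | g4
      · exact Or.inl g4.1
      · exact Or.inr g4.2
    · intro a _ hc
      have hc' : β ∈ x.S P a := hc
      rw [mem_S'] at hc'
      omega
  · intro P hP Q hQ
    have hP' : P < 2 * x.h := hP
    have hQ' : Q < 2 * x.h := hQ
    show 2 * (((2 * x.h * x.t : ℕ) : ℝ) * (x.θ / (2 * x.h * x.t) + x.δ)) * x.D + 2 ≤
      ((lab x.st (x.Φ P Q)).card : ℝ)
    have hlab : (lab x.st (x.Φ P Q)).card = (x.Φ P Q).card * x.v := by
      rw [card_lab_eq hstm, Finset.sum_congr rfl (g := fun _ => x.v), Finset.sum_const,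
        smul_eq_mul]
      intro β hβ
      rw [hmΦ] at hβ
      exact (hB x hx).2.2.2.2.2.2.1 β hβ.1.1 hβ.1.2
    set i0 := P * (2 * x.h) + Q with hi0
    have hi4 : i0 < 4 * x.h ^ 2 := by
      have : (P + 1) * (2 * x.h) ≤ 2 * x.h * (2 * x.h) := Nat.mul_le_mul_right _ hP'
      have e1 : (P + 1) * (2 * x.h) = P * (2 * x.h) + 2 * x.h := by ring
      have e2 : 2 * x.h * (2 * x.h) = 4 * x.h ^ 2 := by ring
      omega
    have hiL : i0 < x.L := by
      rw [hx.L1]
      omega
    have hcount := count_res (a := x.b0) (M := x.M) hiL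
    have hTsub : ((Finset.Ico x.b0 (x.b0 + x.M)).filter fun β => β % x.L = i0) ⊆ x.Φ P Q := by
      intro β hβ
      rw [Finset.mem_filter, Finset.mem_Ico] at hβ
      rw [hmΦ, hβ.2]
      have e2 : x.b1 = x.b0 + x.M := rfl
      have e3 : i0 / (2 * x.h) = P := by
        rw [hi0, mul_comm P, Nat.mul_add_div (by omega), Nat.div_eq_of_lt hQ']
        simp
      have e4 : i0 % (2 * x.h) = Q := by
        rw [hi0, mul_comm P, Nat.mul_add_mod, Nat.mod_eq_of_lt hQ']
      exact ⟨⟨by omega, by omega⟩, hi4, Or.inl ⟨e3, e4⟩⟩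
    have hcardT := Finset.card_le_card hTsub
    have hcL : x.M ≤ (x.Φ P Q).card * x.L + x.L := by
      have := Nat.mul_le_mul_right x.L hcardT
      omega
    rw [hlab]
    push_cast
    have hcL' : (x.M : ℝ) ≤ (x.Φ P Q).card * x.L + x.L := by exact_mod_cast hcL
    have hLge : (8 * 10 ^ 6 : ℝ) ≤ x.L := by exact_mod_cast hx.Lge
    have hhge' : (1000 : ℝ) ≤ x.h := by exact_mod_cast hhge
    have ht1 : (1 : ℝ) ≤ x.t := by exact_mod_cast hx.t1
    have hm0 : (0 : ℝ) < 2 * x.h * x.t := by positivity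
    rw [mul_add, mul_div_cancel₀ _ hm0.ne']
    have hmu := hx.m0
    have hth := hx.t0
    have heta := hx.eta_le
    have hn1 := hx.n1
    have hthle := hx.th_le
    have hd0 := hx.d0
    have hv := hx.mu_le_v
    rw [le_div_iff₀ hDpos] at hv
    have htL := hx.tL
    have hMmu := hx.Mmu.1
    -- L μ small
    have hLmu : (x.L : ℝ) * x.μ ≤ 1 / 100 := by
      have h1 := hx.mu_smallL
      have b1 := hx.L_le_L4
      have b2 : (x.L : ℝ) * x.μ ≤ (x.L : ℝ) ^ 4 * x.μ := mul_le_mul_of_nonneg_right b1 hmu.le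
      have b3 : x.η * x.θ ≤ 1 * 1 :=
        mul_le_mul (by linarith) (by linarith) hth.le (by norm_num)
      linarith
    -- D large
    have hDL : 20 * (x.L : ℝ) ≤ x.D := by
      have h1 := hx.D2
      have h2 : (0 : ℝ) ≤ x.B := Nat.cast_nonneg _
      have h3 : x.η * x.θ * x.μ * x.D ≤ 1 * (x.μ * x.D) := by
        have : x.η * x.θ ≤ 1 := by
          have : x.η * x.θ ≤ 1 * 1 := mul_le_mul (by linarith) (by linarith) hth.le (by norm_num)
          linarith
        calc x.η * x.θ * x.μ * x.D = (x.η * x.θ) * (x.μ * x.D) := by ring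
          _ ≤ 1 * (x.μ * x.D) := mul_le_mul_of_nonneg_right this (by positivity)
      have h4 : 1 ≤ x.μ * x.D := by linarith
      have h5 : 20 * (x.L : ℝ) * x.μ ≤ x.D * x.μ := by linarith
      exact le_of_mul_le_mul_right h5 hmu
    have hdel : 10 ^ 9 * (x.L : ℝ) * (2 * x.h * x.t) * x.δ ≤ x.θ := by
      have h1 := hx.d1
      have hB0 : (0 : ℝ) ≤ x.B := Nat.cast_nonneg _
      have hm1 : (0 : ℝ) ≤ 2 * x.h * x.t := hm0.le
      have : (x.L : ℝ) * (2 * x.h * x.t) * 1 * 1 ≤
          (x.L : ℝ) * (2 * x.h * x.t + 2) ^ 2 * (x.B + 2) * (2 * x.h + 2) := by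
        gcongr
        · nlinarith
        · linarith
        · linarith
      have h2 := mul_le_mul_of_nonneg_left this (by positivity : (0 : ℝ) ≤ 10 ^ 9 * x.δ)
      calc _ = 10 ^ 9 * x.δ * (x.L * (2 * x.h * x.t) * 1 * 1) := by ring
        _ ≤ _ := h2
        _ = _ := by ring
        _ ≤ _ := h1
    generalize ((x.Φ P Q).card : ℝ) = c at hcL' ⊢
    generalize (2 * (x.h : ℝ) * x.t) = m at hdel hm0 ⊢
    have hL0 : (0 : ℝ) < x.L := by linarith
    -- c μ L ≥ 0.98
    have k1 : 98 / 100 ≤ c * x.μ * x.L := by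
      have : x.M * x.μ ≤ (c * x.L + x.L) * x.μ := mul_le_mul_of_nonneg_right hcL' hmu.le
      nlinarith
    have hc0 : 0 ≤ c := by
      by_contra hc
      push Not at hc
      have : c * x.μ * x.L < 0 := by
        have h1 : c * x.μ < 0 := mul_neg_of_neg_of_pos hc hmu
        exact mul_neg_of_neg_of_pos h1 hL0
      linarith
    have k2 : 98 / 100 * x.D ≤ c * x.v * x.L := by
      calc 98 / 100 * (x.D : ℝ) ≤ (c * x.μ * x.L) * x.D :=
            mul_le_mul_of_nonneg_right k1 hDpos.le
        _ = (c * x.L) * (x.μ * x.D) := by ring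
        _ ≤ (c * x.L) * x.v := mul_le_mul_of_nonneg_left hv (by positivity)
        _ = c * x.v * x.L := by ring
    have k3 : (2 * (x.θ + m * x.δ) * x.D + 2) * x.L ≤ 98 / 100 * x.D := by
      have a1 : x.θ * x.L ≤ 1 / 10 := by linarith
      have a2 : m * x.δ * x.L ≤ 1 / 100 := by
        have : 10 ^ 9 * (m * x.δ * x.L) ≤ 1 := by
          calc 10 ^ 9 * (m * x.δ * x.L) = 10 ^ 9 * (x.L : ℝ) * m * x.δ := by ring
            _ ≤ x.θ := hdel
            _ ≤ 1 := by linarith
        linarith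
      have a3 : (2 * (x.θ + m * x.δ) * x.D + 2) * x.L
          = 2 * (x.θ * x.L) * x.D + 2 * (m * x.δ * x.L) * x.D + 2 * x.L := by ring
      rw [a3]
      have a4 : 2 * (x.θ * x.L) * x.D ≤ 2 * (1 / 10) * x.D :=
        mul_le_mul_of_nonneg_right (by linarith) hDpos.le
      have a5 : 2 * (m * x.δ * x.L) * x.D ≤ 2 * (1 / 100) * x.D :=
        mul_le_mul_of_nonneg_right (by linarith) hDpos.le
      linarith
    exact le_of_mul_le_mul_right (k3.trans k2) hL0

end Pool.Agent.H65.HX.Sc
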