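import Pool.Agent.H65.HX.Sch
import Pool.Agent.H65.HX.VBC
import Pool.Agent.H65.HX.VA
import Pool.Agent.H39.HX.SPar
import Pool.Agent.H61.HX.SAva
import Pool.Agent.H61.HX.SBlk
import Pool.Agent.H24.HX.SCen
import Pool.Agent.H24.HX.SRow
import Pool.Agent.H21.HX.Col
import Pool.Agent.H96.HX.Cld
import Pool.Agent.H96.HX.Djn
import Pool.Agent.H7.HX.SCol
import Pool.Agent.H7.HX.SShr
import Pool.Agent.H7.HX.SSrb
import Pool.Agent.H48.HX.SCra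
import Pool.Agent.H18.HX.SCto
import Pool.Agent.H18.HX.SPat
import Pool.Agent.H18.HX.SPhi
import Pool.Agent.H1.HX.Kkr
import Pool.Agent.H1.HX.Ktb
import Pool.Agent.H1.HX.Vh
import Pool.Agent.H31.HX.SLamb
import Pool.Agent.H31.HX.SLam
import Pool.Agent.H14.HX.SWin
import Pool.Agent.H14.HX.SVM
import Pool.Agent.H68.HX.STot
import Pool.Agent.H68.HX.SZon
import Pool.Agent.H64.HX.Upt
import Pool.Agent.H81.HX.SVde
import Pool.Agent.H15.HX.VFGK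
import Pool.Agent.H25.HX.SV
import Pool.Agent.H25.HX.SVN
import Pool.Agent.H62.HW.SNum
import Pool.Agent.H33.HW.Koe

/-!
# Project HX: assembly of the scheme side
-/

set_option autoImplicit false
open Classical Finset

namespace Pool.Agent.H65.HX.Sc

theorem i_BLK : S_BLK := Pool.Agent.H61.HX.t_BLK
theorem i_AVA : S_AVA := Pool.Agent.H61.HX.t_AVA
theorem i_MMD : S_MMD := Pool.Agent.H14.HX.t_MMD
theorem i_WIN : S_WIN := Pool.Agent.H14.HX.t_WIN i_AVA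
theorem i_CLD : S_CLD := Pool.Agent.H96.HX.t_CLD i_BLK i_AVA i_MMD i_WIN
theorem i_ZON : S_ZON := Pool.Agent.H68.HX.t_ZON i_AVA
theorem i_SRB : S_SRB := Pool.Agent.H7.HX.Srb.t_SRB i_WIN i_BLK
theorem i_TOT : S_TOT := Pool.Agent.H68.HX.t_TOT i_BLK i_MMD i_CLD i_WIN
theorem i_CEN : S_CEN := Pool.Agent.H24.HX.t_CEN
theorem i_DJN : S_DJN := Pool.Agent.H96.HX.t_DJN i_BLK i_AVA i_MMD i_WIN i_CLD i_ZON
theorem i_LAM : S_LAM := Pool.Agent.H31.HX.S.t_LAM i_TOT i_CEN i_DJN i_ZON i_CLD i_SRB i_MMD i_AVA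
theorem i_TTB : S_TTB := Pool.Agent.H31.HX.S.t_TTB i_TOT i_CEN i_DJN i_SRB i_CLD
theorem i_PAT : S_PAT := Pool.Agent.H18.HX.t_PAT
theorem i_CTO : S_CTO := Pool.Agent.H18.HX.Cto.t_CTO i_BLK i_AVA i_CLD
theorem i_CLA : S_CLA := Pool.Agent.H21.HX.t_CLA i_CLD i_AVA i_BLK i_ZON i_DJN i_LAM
theorem i_CLB : S_CLB := Pool.Agent.H21.HX.t_CLB i_CLD i_AVA i_BLK i_ZON i_DJN i_LAM
theorem i_CRA : S_CRA := Pool.Agent.H48.HX.t_CRA i_LAM i_DJN i_ZON i_CLD i_AVA i_BLK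
theorem i_CRB : S_CRB := Pool.Agent.H48.HX.t_CRB i_LAM i_DJN i_ZON i_CLD i_AVA i_BLK
theorem i_COL : S_COL :=
  Pool.Agent.H7.HX.Col.t_COL i_CRA i_CLB i_CRB i_CLA i_CTO i_TTB i_LAM i_CLD i_ZON

/-- the scheme side from the four parts about the middle pattern -/
theorem sch_of (hALL : S_ALL) (hVA : S_VA) (hVB : S_VB) (hVC : S_VC) : S_SCH := by
  have hROW : S_ROW := Pool.Agent.H24.HX.t_ROW i_LAM i_CLD i_TTB i_ZON hALL i_MMD
  have hSHR : S_SHR := Pool.Agent.H7.HX.Shr.t_SHR Pool.Agent.H62.HW.t_PER i_PAT hROW i_CLD i_WIN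
    i_BLK i_TTB i_LAM
  have hUPT : S_UPT := Pool.Agent.H64.HX.Sc.t_UPT hSHR hROW i_PAT
  have hUPB : S_UPB := Pool.Agent.H64.HX.Sc.t_UPB hSHR hROW i_COL i_PAT
  have hKKR : S_KKR := Pool.Agent.H1.HX.t_KKR hUPB
  have hPHI : S_PHI := Pool.Agent.H18.HX.t_PHI Pool.Agent.H33.HW.t_DEC hKKR
  have hKTB : S_KTB := Pool.Agent.H1.HX.t_KTB hKKR hUPT i_CLD i_TTB
  have hVD : S_VD := Pool.Agent.H81.HX.t_VD hKKR hUPB
  have hVE : S_VE := Pool.Agent.H81.HX.t_VE hKKR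
  have hVF : S_VF := Pool.Agent.H15.HX.t_VF hKTB i_TTB i_SRB i_CLD
  have hVG : S_VG := Pool.Agent.H15.HX.t_VG hKTB hKKR i_TTB i_SRB i_CLD
  have hVH : S_VH := Pool.Agent.H1.HX.t_VH hKTB hKKR hROW i_PAT hSHR i_CLD i_TTB
  have hVI : S_VI := Pool.Agent.H25.HX.t_VI i_MMD i_CLD i_ZON hVF
  have hVJ : S_VJ := Pool.Agent.H25.HX.t_VJ i_MMD i_CLD hVF
  have hVK : S_VK := Pool.Agent.H15.HX.t_VK i_TOT i_CEN i_WIN i_CLD
  have hVL : S_VL := Pool.Agent.H14.HX.t_VL i_MMD i_CLD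
  have hVM : S_VM := Pool.Agent.H14.HX.t_VM
  have hVN : S_VN := Pool.Agent.H25.HX.t_VN i_CLD hVF
  exact t_SCH i_BLK hPHI hVA hVB hVC hVD hVE hVF hVG hVH hVI hVJ hVK hVL hVM hVN
    Pool.Agent.H39.HX.t_PAR

/-- the scheme side -/
theorem sch_all : S_SCH :=
  sch_of (t_ALL i_BLK) (t_VA i_BLK i_MMD) (t_VB i_BLK i_MMD i_WIN (t_ALL i_BLK))
    (t_VC i_BLK (t_ALL i_BLK))

end Pool.Agent.H65.HX.Sc
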