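import Pool.Agent.H65.HX.SStm

/-!
# Project HX, scheme side: basic facts which follow from `Par`
-/

set_option autoImplicit false
open Classical Finset

namespace Pool.Agent.H65.HX.Sc

open Pool.Agent.H39.HW (sm Av ln blk lab)
open Pool.Agent.H65.HX

namespace Par

variable {x : Prm} (hx : Par x)

include hx

theorem Dpos : (0 : ℝ) < x.D := by
  have := hx.D1
  exact_mod_cast this

theorem Lge : 8 * 10 ^ 6 ≤ x.L := by
  have h1 := hx.h1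
  rw [hx.L1]
  nlinarith

theorem Lpos : (0 : ℝ) < x.L := by
  have h1 := hx.Lge
  have : 0 < x.L := by omega
  exact_mod_cast this

theorem hpos : (0 : ℝ) < x.h := by
  have h1 := hx.h1
  have : 0 < x.h := by omega
  exact_mod_cast this

theorem W1' : 1 ≤ x.W := by
  have h1 := hx.q1
  have h2 := hx.Lge
  show 1 ≤ x.L * x.q
  have : 1 * 1 ≤ x.L * x.q := Nat.mul_le_mul (by omega) h1
  simpa using this

theorem L_le_W : x.L ≤ x.W := by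
  have h1 := hx.q1
  show x.L ≤ x.L * x.q
  calc x.L = x.L * 1 := (mul_one _).symm
    _ ≤ x.L * x.q := Nat.mul_le_mul_left _ h1

/-- the outer half of an end zone is long -/
theorem KhW : 2 * x.W + x.J + 2 ≤ x.Kh := by
  have h1 := hx.KW
  have h2 := hx.KhK
  unfold Prm.b0 at h1
  omega

theorem KJW : 2 * x.W + x.J + 2 ≤ x.K := le_trans hx.KhW hx.KhK

theorem p1 : 1 ≤ x.p := by
  by_contra h
  have h0 : x.p = 0 := by omega
  have h1 := hx.g3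
  rw [h0] at h1
  omega

theorem b1_le_B : x.b1 + x.K + x.J = x.B := by
  show x.K + x.J + x.M + x.K + x.J = 2 * x.K + 2 * x.J + x.M
  omega

theorem b0_le_b1 : x.b0 + x.M = x.b1 := rfl

theorem mem_R {a : ℕ} : a ∈ x.R ↔ x.K + 1 ≤ a ∧ a + x.K + 1 ≤ x.B := by
  have h1 := hx.b1_le_B
  have h2 := hx.J1
  unfold Prm.R
  rw [Finset.mem_Icc]
  omega

theorem mem_R0 {a : ℕ} : a ∈ x.R0 ↔ a ∈ x.R ∧ x.B ≤ 2 * a + 2 * x.n0 ∧
    2 * a ≤ x.B + 2 * x.n0 := by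
  unfold Prm.R0
  rw [Finset.mem_filter]

theorem tmpos : 0 < x.θ * x.μ := mul_pos hx.t0 hx.m0

theorem etpos : 0 < x.η * x.θ := mul_pos hx.n1 hx.t0

theorem n0pos : 0 < x.n0 * x.μ := by
  have h1 := hx.n2
  have : (0 : ℝ) < x.n0 := by
    have : 0 < x.n0 := by omega
    exact_mod_cast this
  exact mul_pos this hx.m0

/-- `n0 μ` is at most `10⁻¹²` -/
theorem n0_le : x.n0 * x.μ ≤ 1 / 10 ^ 12 := by
  have h1 := hx.V1
  have h2 : (1 : ℝ) ≤ x.L := by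
    have := hx.Lge
    have : 1 ≤ x.L := by omega
    exact_mod_cast this
  have h3 : (1 : ℝ) ≤ x.h := by
    have := hx.h1
    have : 1 ≤ x.h := by omega
    exact_mod_cast this
  have h4 := hx.n0pos
  have h5 : (1 : ℝ) ≤ x.L * x.h := by nlinarith
  have h6 : 10 ^ 12 * (x.n0 * x.μ) * 1 ≤ 10 ^ 12 * (x.n0 * x.μ) * (x.L * x.h) :=
    mul_le_mul_of_nonneg_left h5 (by positivity)
  rw [le_div_iff₀ (by positivity)]
  nlinarith

/-- `n0 μ L h` is at most `10⁻¹²` -/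
theorem n0_le' : x.n0 * x.μ * (x.L * x.h) ≤ 1 / 10 ^ 12 := by
  have h1 := hx.V1
  rw [le_div_iff₀ (by positivity)]
  nlinarith

theorem eta_n0 : x.η ≤ x.n0 * x.μ / 10 ^ 6 := by
  have := hx.V2
  rw [le_div_iff₀ (by positivity)]
  linarith

theorem eta_le : x.η ≤ 1 / 10 ^ 18 := by
  have h1 := hx.V2
  have h2 := hx.n0_le
  norm_num at h1 h2 ⊢
  linarith

/-- `η L h` is at most `10⁻¹⁸` -/
theorem etaLh : x.η * (x.L * x.h) ≤ 1 / 10 ^ 18 := by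
  have h1 := hx.V2
  have h2 := hx.n0_le'
  have h3 : 0 < (x.L : ℝ) * x.h := mul_pos hx.Lpos hx.hpos
  have h4 : 10 ^ 6 * x.η * (x.L * x.h) ≤ x.n0 * x.μ * (x.L * x.h) :=
    mul_le_mul_of_nonneg_right h1 h3.le
  norm_num at h2 h4 ⊢
  linarith

theorem th_le : x.θ ≤ 1 / 10 ^ 18 := hx.th.trans hx.eta_le

/-- `μ` is tiny -/
theorem mu_small : 10 ^ 20 * x.μ ≤ x.η * x.θ := by
  have h1 := hx.u1
  have h3 : (1 : ℝ) ≤ (x.L : ℝ) ^ 4 := by
    have h2 : (1 : ℝ) ≤ x.L := by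
      have := hx.Lge
      have : 1 ≤ x.L := by omega
      exact_mod_cast this
    exact one_le_pow₀ h2
  have h4 := hx.m0
  have h5 : 10 ^ 20 * x.μ * 1 ≤ 10 ^ 20 * x.μ * (x.L : ℝ) ^ 4 :=
    mul_le_mul_of_nonneg_left h3 (by positivity)
  nlinarith

/-- `μ` is tiny, with powers of `L` -/
theorem mu_smallL : 10 ^ 20 * x.μ * (x.L : ℝ) ^ 4 ≤ x.η * x.θ := by
  have h1 := hx.u1
  nlinarith

theorem L_le_L4 : (x.L : ℝ) ≤ (x.L : ℝ) ^ 4 := by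
  have h2 : (1 : ℝ) ≤ x.L := by
    have := hx.Lge
    have : 1 ≤ x.L := by omega
    exact_mod_cast this
  calc (x.L : ℝ) = (x.L : ℝ) ^ 1 := (pow_one _).symm
    _ ≤ (x.L : ℝ) ^ 4 := pow_le_pow_right₀ h2 (by norm_num)

/-- `n0` is huge: `10²⁶ L⁴ ≤ n0 θ` -/
theorem n0_huge : 10 ^ 26 * (x.L : ℝ) ^ 4 ≤ x.n0 * x.θ ∨ 10 ^ 26 * (x.L : ℝ) ^ 4 ≤ x.n0 := by
  right
  have h1 := hx.mu_smallL
  have h2 := hx.V2
  have h3 := hx.m0
  have h4 : x.η * x.θ ≤ x.η * 1 := by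
    apply mul_le_mul_of_nonneg_left _ hx.n1.le
    have := hx.th_le
    norm_num at this ⊢
    linarith
  have h5 : 10 ^ 26 * (x.L : ℝ) ^ 4 * x.μ ≤ x.n0 * x.μ := by nlinarith
  exact le_of_mul_le_mul_right h5 h3

/-- `μ` is tiny against `n0 μ θ` -/
theorem mu_n0 : 10 ^ 26 * x.μ * (x.L : ℝ) ^ 4 ≤ x.n0 * x.μ * x.θ := by
  have h1 := hx.mu_smallL
  have h2 := hx.V2
  have h3 : 10 ^ 6 * x.η * x.θ ≤ x.n0 * x.μ * x.θ := mul_le_mul_of_nonneg_right h2 hx.t0.le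
  nlinarith

theorem eta_mul : x.η * x.θ * x.μ ≤ 1 / 10 ^ 18 * (x.θ * x.μ) := by
  rw [mul_assoc]
  exact mul_le_mul_of_nonneg_right hx.eta_le hx.tmpos.le

theorem w1_ge : (1 + 249 / 1000 * x.θ) * x.μ ≤ (x.w1 : ℝ) / x.D := by
  have h1 := abs_le.mp hx.s1
  have h3 := hx.tmpos
  have := hx.eta_mul
  nlinarith [h1.1]

theorem w1_le : (x.w1 : ℝ) / x.D ≤ (1 + 251 / 1000 * x.θ) * x.μ := by
  have h1 := abs_le.mp hx.s1
  have h3 := hx.tmpos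
  have := hx.eta_mul
  nlinarith [h1.2]

theorem w2_ge : (1 + 149 / 1000 * x.θ) * x.μ ≤ (x.w2 : ℝ) / x.D := by
  have h1 := abs_le.mp hx.s2
  have h3 := hx.tmpos
  have := hx.eta_mul
  nlinarith [h1.1]

theorem w2_le : (x.w2 : ℝ) / x.D ≤ (1 + 151 / 1000 * x.θ) * x.μ := by
  have h1 := abs_le.mp hx.s2
  have h3 := hx.tmpos
  have := hx.eta_mul
  nlinarith [h1.2]

theorem v_ge : (1 + 599 / 1000 * x.θ) * x.μ ≤ (x.v : ℝ) / x.D := by
  have h1 := abs_le.mp hx.s3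
  have h3 := hx.tmpos
  have := hx.eta_mul
  nlinarith [h1.1]

theorem v_le : (x.v : ℝ) / x.D ≤ (1 + 601 / 1000 * x.θ) * x.μ := by
  have h1 := abs_le.mp hx.s3
  have h3 := hx.tmpos
  have := hx.eta_mul
  nlinarith [h1.2]

theorem th_mu : x.θ * x.μ ≤ 1 / 10 ^ 18 * x.μ := mul_le_mul_of_nonneg_right hx.th_le hx.m0.le

theorem v_le2 : (x.v : ℝ) / x.D ≤ 101 / 100 * x.μ := by
  have h1 := hx.v_le
  have h2 := hx.th_mu
  have h3 := hx.m0
  nlinarith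

theorem w1_le2 : (x.w1 : ℝ) / x.D ≤ 101 / 100 * x.μ := by
  have h1 := hx.w1_le
  have h2 := hx.th_mu
  have h3 := hx.m0
  nlinarith

theorem w2_le2 : (x.w2 : ℝ) / x.D ≤ 101 / 100 * x.μ := by
  have h1 := hx.w2_le
  have h2 := hx.th_mu
  have h3 := hx.m0
  nlinarith

theorem mu_le_w2 : x.μ ≤ (x.w2 : ℝ) / x.D := by
  have h1 := hx.w2_ge
  have h3 := hx.tmpos
  nlinarith

theorem mu_le_w1 : x.μ ≤ (x.w1 : ℝ) / x.D := by
  have h1 := hx.w1_ge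
  have h3 := hx.tmpos
  nlinarith

theorem mu_le_v : x.μ ≤ (x.v : ℝ) / x.D := by
  have h1 := hx.v_ge
  have h3 := hx.tmpos
  nlinarith

/-- `(K - g) v / D` -/
theorem X_le : ((x.K : ℝ) - x.g) * (x.v / x.D) ≤ (2 / 5 + x.η) * x.θ := by
  have := (abs_le.mp hx.j2).2
  linarith

theorem X_ge : (2 / 5 - x.η) * x.θ ≤ ((x.K : ℝ) - x.g) * (x.v / x.D) := by
  have := (abs_le.mp hx.j2).1
  linarith

theorem Kg0 : (0 : ℝ) ≤ (x.K : ℝ) - x.g := by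
  have : (x.g : ℝ) ≤ x.K := by exact_mod_cast hx.g1
  linarith

theorem Kgpos : (0 : ℝ) < (x.K : ℝ) - x.g := by
  have h1 := hx.X_ge
  have h2 := hx.eta_le
  have h3 := hx.t0
  by_contra hc
  have h4 : (x.K : ℝ) - x.g ≤ 0 := not_lt.1 hc
  have h5 : ((x.K : ℝ) - x.g) * (x.v / x.D) ≤ 0 := by
    apply mul_nonpos_of_nonpos_of_nonneg h4
    have := hx.mu_le_v
    have := hx.m0
    linarith
  have h6 : 0 < (2 / 5 - x.η) * x.θ := by
    apply mul_pos _ h3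
    norm_num at h2 ⊢
    linarith
  linarith

theorem Kg_le : ((x.K : ℝ) - x.g) * x.μ ≤ 1 / 2 * x.η := by
  have h1 := hx.X_le
  have h2 := hx.mu_le_v
  have h3 := hx.Kg0
  have a1 := mul_le_mul_of_nonneg_left h2 h3
  have h4 := hx.eta_le
  have h5 := hx.t0
  have h6 := hx.th
  have a2 : (2 / 5 + x.η) * x.θ ≤ 1 / 2 * x.θ := by
    apply mul_le_mul_of_nonneg_right _ h5.le
    norm_num at h4 ⊢
    linarith
  linarith

theorem Kmu : 1 / 2 - x.η ≤ x.K * x.μ ∧ x.K * x.μ ≤ 1 / 2 + x.η := by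
  have := abs_le.mp hx.k1
  constructor <;> linarith [this.1, this.2]

theorem Khmu : 1 / 4 - x.η ≤ x.Kh * x.μ ∧ x.Kh * x.μ ≤ 1 / 4 + x.η := by
  have := abs_le.mp hx.kh
  constructor <;> linarith [this.1, this.2]

theorem Mmu : 1 - x.η ≤ x.M * x.μ ∧ x.M * x.μ ≤ 1 + x.η := by
  have := abs_le.mp hx.m1
  constructor <;> linarith [this.1, this.2]

theorem Jmu : 0 ≤ x.J * x.μ ∧ x.J * x.μ ≤ x.η :=
  ⟨mul_nonneg (Nat.cast_nonneg _) hx.m0.le, hx.j1⟩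

/-- `(M + 2 J) μ = 1 - θ + μ` -/
theorem MJ : ((x.M : ℝ) + 2 * x.J) * x.μ = 1 - x.θ + x.μ := by
  unfold Prm.θ
  ring

theorem Bcast : (x.B : ℝ) = 2 * x.K + 2 * x.J + x.M := by
  unfold Prm.B
  push_cast
  ring

theorem b0cast : (x.b0 : ℝ) = x.K + x.J := by
  unfold Prm.b0
  push_cast
  ring

theorem b1cast : (x.b1 : ℝ) = x.K + x.J + x.M := by
  unfold Prm.b1
  push_cast
  ring

/-- `B μ` -/
theorem Bmu : 2 - 3 * x.η ≤ x.B * x.μ ∧ x.B * x.μ ≤ 2 + 5 * x.η := by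
  have h1 := hx.Kmu
  have h2 := hx.Mmu
  have h3 := hx.Jmu
  rw [hx.Bcast]
  constructor <;> nlinarith [h1.1, h1.2, h2.1, h2.2, h3.1, h3.2]

/-- the extra labels of the last block are negligible -/
theorem Msmall : ((x.M : ℝ) + 1) / x.D ≤ x.η * x.θ * x.μ / 10 ^ 9 := by
  have h1 := hx.D2
  have h2 := hx.Dpos
  have h3 : (x.M : ℝ) ≤ x.B := by
    have : x.M ≤ x.B := by
      show x.M ≤ 2 * x.K + 2 * x.J + x.M
      omega
    exact_mod_cast this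
  rw [div_le_iff₀ h2]
  linarith

end Par

end Pool.Agent.H65.HX.Sc
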