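import Pool.Agent.H65.HX.Defs

/-!
# Project HX, scheme side for `|p - D / 2| ≤ ε D`: definitions

See `Pool/Agent/H65/HX/NOTES.md`.
-/

set_option autoImplicit false
open Classical Finset

namespace Pool.Agent.H65.HX.Sc

open Pool.Agent.H39.HW (sm Av ln blk lab)
open Pool.Agent.H65.HX

/-- the parameters -/
structure Prm where
  D : ℕ
  p : ℕ
  /-- number of blocks of a window of length a little more than `p` -/
  K : ℕ
  /-- number of blocks of the outer half of an end zone -/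
  Kh : ℕ
  /-- number of blocks of the windows of the special vertices -/
  J : ℕ
  /-- number of middle blocks -/
  M : ℕ
  /-- least number of middle blocks with at least `p - 1` labels -/
  g : ℕ
  /-- error in the number of adjacent blocks -/
  e : ℕ
  /-- the rows `a` with `|a - B / 2| ≤ n0` are rigid -/
  n0 : ℕ
  /-- number of parts of each type -/
  h : ℕ
  /-- length of the pattern -/
  L : ℕ
  /-- number of patterns in a window -/
  q : ℕ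
  /-- number of special cells in a part -/
  t : ℕ
  /-- length of the blocks of the outer halves of the end zones -/
  w1 : ℕ
  /-- length of the blocks of the inner halves of the end zones -/
  w2 : ℕ
  /-- length of a middle block -/
  v : ℕ
  μ : ℝ
  η : ℝ
  δ : ℝ

namespace Prm

variable (x : Prm)

def b0 : ℕ := x.K + x.J
def b1 : ℕ := x.K + x.J + x.M
def B : ℕ := 2 * x.K + 2 * x.J + x.M
def W : ℕ := x.L * x.q
/-- labels of an end zone -/
def Z0 : ℕ := x.Kh * x.w1 + (x.b0 - x.Kh) * x.w2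
/-- total weight of the special cells -/
noncomputable def θ : ℝ := 1 - ((x.M : ℝ) + 2 * x.J - 1) * x.μ

/-- the blocks: `Kh` of length `w1`, `b0 - Kh` of length `w2`, `M` of length `v`, `b0 - Kh` of
length `w2`, `Kh` of length `w1` (the last one has a few more labels) -/
def st (β : ℕ) : ℕ :=
  if β ≤ x.Kh then β * x.w1
  else if β ≤ x.b0 then x.Kh * x.w1 + (β - x.Kh) * x.w2
  else if β ≤ x.b1 then x.Z0 + (β - x.b0) * x.v
  else if β ≤ x.B - x.Kh then x.Z0 + x.M * x.v + (β - x.b1) * x.w2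
  else if β < x.B then x.Z0 + x.M * x.v + (x.b0 - x.Kh) * x.w2 + (β - (x.B - x.Kh)) * x.w1
  else x.D + 2 * x.p

def R : Finset ℕ := Finset.Icc (x.K + 1) (x.b1 + x.J - 1)

/-- rigid rows -/
def R0 : Finset ℕ := x.R.filter fun a => x.B ≤ 2 * a + 2 * x.n0 ∧ 2 * a ≤ x.B + 2 * x.n0

def mid : Finset ℕ := Finset.Ico x.b0 x.b1

/-- the window of the row `a` for the parts of type `true` (above `a`) or `false` (below `a`) -/
def win (τ : Bool) (a : ℕ) : ℕ :=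
  if τ then (a + x.K + 1) / x.W - 1 else (a - x.K) / x.W + 1

/-- position `i` of the pattern is not used for the service in the part `P` -/
def resv (P i : ℕ) : Prop :=
  (i < 4 * x.h ^ 2 ∧ (i / (2 * x.h) = P ∨ i % (2 * x.h) = P)) ∨ i = 4 * x.h ^ 2 + P

/-- type of the part `P` -/
def tp (P : ℕ) : Bool := decide (P < x.h)

noncomputable def S (P a : ℕ) : Finset ℕ :=
  (range x.B).filter fun β => β / x.W = x.win (x.tp P) a ∧ β % x.L = 4 * x.h ^ 2 + P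

noncomputable def F (P : ℕ) : Finset ℕ := (range x.B).filter fun β => x.resv P (β % x.L)

noncomputable def Φ (P Q : ℕ) : Finset ℕ :=
  x.mid.filter fun β => β % x.L < 4 * x.h ^ 2 ∧
    ((β % x.L / (2 * x.h) = P ∧ β % x.L % (2 * x.h) = Q) ∨
     (β % x.L / (2 * x.h) = Q ∧ β % x.L % (2 * x.h) = P))

/-- blocks and rows for the moved edges -/
def ZZ (τ : Bool) : Finset ℕ :=
  if τ then Finset.Ioc (x.B - 3 * x.K / 10) (x.B - x.K / 5) else Finset.Ico (x.K / 5) (3 * x.K / 10)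
def YY (τ : Bool) : Finset ℕ :=
  if τ then Finset.Icc (x.B - 8 * x.K / 5) (x.B - 7 * x.K / 5)
  else Finset.Icc (7 * x.K / 5) (8 * x.K / 5)

/-- left side of the block `β` -/
noncomputable def lf (β a : ℕ) : Bool :=
  if β ∈ x.ZZ false then
    (decide (¬ ∃ b ∈ x.R, b < a ∧ sm x.B a b = β)).xor
      (decide (a ≤ 9 * x.K / 5 ∨ x.B + β ≤ a + 9 * x.K / 5))
  else if β ∈ x.ZZ true then
    (decide (¬ ∃ b ∈ x.R, a < b ∧ sm x.B a b = β)).xor
      (decide (x.B ≤ a + 9 * x.K / 5 ∨ x.B + a ≤ β + 9 * x.K / 5))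
  else decide (¬ ∃ b ∈ x.R, b < a ∧ sm x.B a b = β)

/-- error of the demands -/
noncomputable def er (a : ℕ) : ℝ :=
  if a ∈ x.R0 ∨ a ∈ x.YY true ∨ a ∈ x.YY false then x.θ * x.μ / (3 * 10 ^ 7 * x.L * x.h) else 0

/-- error in the parts -/
noncomputable def e1 (a : ℕ) : ℝ :=
  if a ∈ x.R0 ∨ a ∈ x.YY true ∨ a ∈ x.YY false then x.θ / (10 ^ 7 * x.L * x.h)
  else x.n0 * x.μ * x.θ / (10 ^ 6 * x.L * x.h)

/-- the data without service and hubs -/
noncomputable def d0 : Dat where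
  B := x.B
  K := x.K
  R := x.R
  R0 := x.R0
  m := 2 * x.h * x.t
  H := 2 * x.h
  st := x.st
  ty := fun P => decide (P < x.h)
  part := fun y => y / x.t
  φ := fun _ _ => 0
  S := x.S
  F := x.F
  Φ := x.Φ
  Hb := fun _ => ∅
  ξ := x.J * x.w2
  μ := x.μ
  ω := x.θ / (2 * x.h * x.t)
  δ := x.δ
  ρ1 := 1 / (200 * x.L)
  ρ2 := 1 / (32 * x.L)
  ρ3 := x.θ / 200
  e1 := x.e1
  er := x.er
  e2 := x.n0 * x.μ * x.θ
  Y := x.YY
  Z := x.ZZ
  lf := x.lf

noncomputable def cls (a : ℕ) : Finset ℕ := x.d0.cls x.p a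
noncomputable def mm (a : ℕ) : Finset ℕ := x.d0.mm a
noncomputable def dem (a β : ℕ) : ℝ := x.d0.dem x.D a β

/-- the hub: unreserved blocks used with other rows, in the middle zone if `a` is not rigid -/
noncomputable def Hb (a : ℕ) : Finset ℕ :=
  (x.cls a).filter fun β => β ∈ x.mm a ∧ 4 * x.h ^ 2 + 2 * x.h ≤ β % x.L ∧
    (a ∉ x.R0 → β ∈ x.mid)

/-- the data with the service `φ` -/
noncomputable def dat (φ : ℕ → ℕ → ℕ) : Dat := { x.d0 with φ := φ, Hb := x.Hb }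

/-- the block `β` is adjacent to the row `a` -/
def adj (a β : ℕ) : Prop := β ≤ a + x.K ∧ a ≤ β + x.K

/-- part of type `true` in the service of the class `β` of the row `a` (`l` for adjacent middle
blocks) -/
noncomputable def gA (l : ℝ) (a β : ℕ) : ℝ :=
  if a ∈ x.R0 then (if a < β then 1 else 0)
  else if β < x.b0 then 0
  else if x.b1 ≤ β then 1
  else if x.adj a β then l
  else if 2 * a < x.B then 1 / 4 else 3 / 4

/-- adjacent middle classes of the row `a` -/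
noncomputable def Fx (a : ℕ) : Finset ℕ := (x.cls a).filter fun β => β ∈ x.mid ∧ x.adj a β

noncomputable def Dt (a : ℕ) : ℝ := ∑ β ∈ x.cls a, x.dem a β
noncomputable def DJ (a : ℕ) : ℝ := ∑ β ∈ x.Fx a, x.dem a β
/-- demand below the row -/
noncomputable def DL (a : ℕ) : ℝ := ∑ β ∈ (x.cls a).filter (fun β => β < a), x.dem a β
/-- labels reserved for the parts of type `τ` -/
noncomputable def sr (τ : Bool) (a : ℕ) : ℝ :=
  ∑ P ∈ (range (2 * x.h)).filter (fun P => x.tp P = τ), ((lab x.st (x.S P a)).card : ℝ) / x.D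

/-- the fraction of type `true` on the adjacent middle classes -/
noncomputable def lam (a : ℕ) : ℝ :=
  (x.Dt a / 2 - ∑ β ∈ x.cls a, x.gA 0 a β * x.dem a β) / x.DJ a

/-- fraction of the type `τ` -/
noncomputable def fr (τ : Bool) (a β : ℕ) : ℝ :=
  if τ then x.gA (x.lam a) a β else 1 - x.gA (x.lam a) a β

/-- total demand for the type `τ` (`Dt a / 2` if `a` is not rigid) -/
noncomputable def Tt (τ : Bool) (a : ℕ) : ℝ := ∑ β ∈ x.cls a, x.fr τ a β * x.dem a β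

/-- normalised service of type `τ` -/
noncomputable def u (τ : Bool) (a β : ℕ) : ℝ :=
  if β ∈ x.cls a then x.fr τ a β * x.dem a β / x.Tt τ a else 0

/-- number of the parts of type `τ` which can serve at position `i` of the pattern -/
noncomputable def nn (τ : Bool) (i : ℕ) : ℕ :=
  ((range (2 * x.h)).filter fun P => x.tp P = τ ∧ ¬ x.resv P i).card

/-- weight of the part `P` at position `i` -/
noncomputable def wt (P i : ℕ) : ℝ := if x.resv P i then 0 else (x.h : ℝ) / x.nn (x.tp P) i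

noncomputable def rs (P a : ℕ) : ℝ := ∑ β ∈ range x.B, x.wt P (β % x.L) * x.u (x.tp P) a β

/-- normalised service by the part `P` -/
noncomputable def uP (P a β : ℕ) : ℝ := x.wt P (β % x.L) * x.u (x.tp P) a β / x.rs P a

/-- number of cells of the part `P` which serve the row `a` with the block `β` -/
noncomputable def kk (P a β : ℕ) : ℕ :=
  ⌊(x.t : ℝ) * ∑ b ∈ range (β + 1), x.uP P a b⌋₊ - ⌊(x.t : ℝ) * ∑ b ∈ range β, x.uP P a b⌋₊

end Prm

/-- the inequalities between the parameters -/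
structure Par (x : Prm) : Prop where
  n1 : 0 < x.η
  /-- `n0 μ` is small (`≤ 1 / (10^12 L h)`), `η` is much smaller -/
  V1 : 10 ^ 12 * (x.L : ℝ) * x.h * (x.n0 * x.μ) ≤ 1
  V2 : 10 ^ 6 * x.η ≤ x.n0 * x.μ
  h1 : 1000 ≤ x.h
  L1 : x.L = 8 * x.h ^ 2 + 4 * x.h
  D1 : 1 ≤ x.D
  J1 : 1 ≤ x.J
  q1 : 1 ≤ x.q
  t1 : 1 ≤ x.t
  n2 : 1 ≤ x.n0
  w0 : 1 ≤ x.w2
  w12 : x.w2 < x.w1
  w1v : x.w1 < x.v
  /-- every `K - 2 W - 2` consecutive blocks have at least `p` labels -/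
  pK : x.p ≤ (x.b0 - x.Kh) * x.w2 + (x.K - 2 * x.W - 2 - (x.b0 - x.Kh)) * x.w1
  KW : x.b0 - x.Kh + 2 * x.W + 2 ≤ x.K
  KhK : x.Kh ≤ x.K
  KJ : 100 * x.J + 100 ≤ x.K
  Kh1 : 5 * x.K ≤ 11 * x.Kh
  Kh2 : 9 * x.Kh ≤ 5 * x.K
  /-- `g` middle blocks have at least `p - 1` labels, `g - 1` have fewer -/
  g0 : 1 ≤ x.g
  g1 : x.g ≤ x.K
  g2 : x.p ≤ x.g * x.v + 1
  g3 : (x.g - 1) * x.v + 1 < x.p
  e2 : x.J * (x.v - x.w2) ≤ x.e * x.v
  e3 : ((x.e : ℝ) + 1) * x.μ ≤ x.η * x.θ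
  N1 : 2 * x.Z0 + x.M * x.v ≤ x.D + 2 * x.p
  N2 : x.D + 2 * x.p < 2 * x.Z0 + x.M * x.v + x.M
  m0 : 0 < x.μ
  t0 : 0 < x.θ
  th : x.θ ≤ x.η
  tL : 10 * x.L * x.θ ≤ 1
  c1 : |(x.p : ℝ) / x.D - 1 / 2| ≤ x.η
  s1 : |(x.w1 : ℝ) / x.D - x.μ - 1 / 4 * x.θ * x.μ| ≤ x.η * x.θ * x.μ
  s2 : |(x.w2 : ℝ) / x.D - x.μ - 3 / 20 * x.θ * x.μ| ≤ x.η * x.θ * x.μ
  s3 : |(x.v : ℝ) / x.D - x.μ - 3 / 5 * x.θ * x.μ| ≤ x.η * x.θ * x.μ
  k1 : |x.K * x.μ - 1 / 2| ≤ x.η
  kh : |x.Kh * x.μ - 1 / 4| ≤ x.η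
  m1 : |x.M * x.μ - 1| ≤ x.η
  j1 : x.J * x.μ ≤ x.η
  /-- `K` blocks of an end zone -/
  k2 : |((x.Kh : ℝ) * x.w1 + (x.K - x.Kh) * x.w2 - x.p) / x.D - 1 / 5 * x.θ| ≤ x.η * x.θ
  /-- the adjacent middle blocks -/
  j2 : |((x.K : ℝ) - x.g) * (x.v / x.D) - 2 / 5 * x.θ| ≤ x.η * x.θ
  q2 : x.θ / (200 * x.L) ≤ x.h * x.q * ((x.w2 : ℝ) / x.D)
  q3 : x.h * x.q * ((x.v : ℝ) / x.D) ≤ x.θ / (120 * x.L)
  u1 : 10 ^ 20 * (x.L : ℝ) ^ 4 * x.μ ≤ x.η * x.θ
  D2 : 10 ^ 9 * ((x.B : ℝ) + 1) ≤ x.η * x.θ * x.μ * x.D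
  t2 : 10 ^ 20 * (x.L : ℝ) ^ 3 * x.B ≤ x.η * x.t
  d0 : 0 < x.δ
  d1 : 10 ^ 9 * (x.L : ℝ) * (2 * x.h * x.t + 2) ^ 2 * (x.B + 2) * (2 * x.h + 2) * x.δ ≤ x.θ
  xi : x.θ * x.D + 2 * x.h * x.t * x.δ * x.D + 2 ≤ x.J * x.w2

end Pool.Agent.H65.HX.Sc
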