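import Pool.Agent.H65.HX.SStm

/-!
# Project HX: assembly of the scheme side
-/

set_option autoImplicit false
open Classical Finset

namespace Pool.Agent.H65.HX.Sc

open Pool.Agent.H39.HW (sm Av ln blk lab)
open Pool.Agent.H65.HX

theorem t_SCH (hBLK : S_BLK) (hPHI : S_PHI) (hVA : S_VA) (hVB : S_VB) (hVC : S_VC) (hVD : S_VD)
    (hVE : S_VE) (hVF : S_VF) (hVG : S_VG) (hVH : S_VH) (hVI : S_VI) (hVJ : S_VJ) (hVK : S_VK)
    (hVL : S_VL) (hVM : S_VM) (hVN : S_VN) (hPAR : S_PAR) : S_SCH := by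
  obtain ⟨ε, B0, m0, δ, hε, hδ, D0, hD0⟩ := hPAR
  refine ⟨ε, B0, m0 + m0, δ, hε, hδ, D0, fun D hD p hp => ?_⟩
  obtain ⟨x, hx, rfl, rfl, rfl, hB, hm⟩ := hD0 D hD p hp
  obtain ⟨φ, hφ⟩ := hPHI x hx
  obtain ⟨a1, a2, a3, a4, a5, a6, a7, a8, a9, a10, a11, a12, a13, a14, a15, a16, a17, a18, a19,
    a20⟩ := hVA x hx φ
  obtain ⟨b1, b2, b3, b4⟩ := hVB x hx φ
  obtain ⟨c1, c2, c3⟩ := hVC x hx φ
  obtain ⟨d1, d2, d3, d4, d5⟩ := hVD x hx φ hφ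
  have hE := hVE x hx φ hφ
  have hF := hVF x hx φ hφ
  have hG := hVG x hx φ hφ
  obtain ⟨h1, h2⟩ := hVH x hx φ hφ
  have hI := hVI x hx φ hφ
  have hJ := hVJ x hx φ hφ
  obtain ⟨k1, k2, k3, k4, k5⟩ := hVK x hx φ
  obtain ⟨l1, l2, l3, l4⟩ := hVL x hx φ
  obtain ⟨m1, m2⟩ := hVM x hx φ
  obtain ⟨n1, n2, n3, n4⟩ := hVN x hx φ hφ
  obtain ⟨s0, sB, sm', _⟩ := hBLK x hx
  refine ⟨x.dat φ, ?_, hB, ?_, ?_, rfl⟩
  · exact
      { hp := a1, hK := a2, hR := a3, hH := a4, hm := a5, st0 := s0, stB := sB, stm := sm',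
        KB := a6, lnl := a7, lnu := a8, dpos := a9, opos := a10, rho1 := a11, rho12 := a12,
        rho2 := a13, small := a14, tot := a15, xi1 := a16, xi2 := a17, xi3 := a18, prt := a19,
        ph1 := d1, ph2 := d2, ph3 := d3, ph4 := d4, S1 := b1, S2 := b2, S3 := b3, S4 := b4,
        Ph1 := c1, Ph2 := c2, Ph3 := c3, fre := hE, rho3 := a20,
        sur1 := fun a ha β hβ => (hF a ha β hβ).1,
        sur2 := fun a ha β hβ => (hF a ha β hβ).2.1, par := hG, hb1 := h1, hb2 := h2, hb3 := hI,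
        hb4 := hJ, R0R := k1, rg0 := k2, rg1 := d5, rg2 := k3, e20 := k4, bal := k5, xY := l1,
        xc1 := l2, xc2 := l3, xs := l4, or1 := m1, or2 := m2, er0 := n1, er1 := n2, er2 := n3,
        xe := n4 }
  · exact le_trans hm (Nat.le_add_left _ _)
  · have h3 : (x.dat φ).H = 2 * x.h := rfl
    have h4 : 1 ≤ x.t := hx.t1
    rw [h3]
    calc 2 * x.h ≤ 2 * x.h * x.t := Nat.le_mul_of_pos_right _ h4
      _ ≤ m0 := hm
      _ ≤ m0 + m0 := Nat.le_add_left _ _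

end Pool.Agent.H65.HX.Sc
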